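import Mathlib

set_option autoImplicit false

/-!
# One-relator groups: periodic words

`ℓ : ℕ → X × Bool` is a periodic sequence of signed letters, `W f ℓ n` the product of the first
`n` letters evaluated at `f : X → G`.
-/

namespace Pool.H679R3.OR

section basic
variable {X : Type} {G H : Type*} [Group G] [Group H]

/-- value of a signed letter. -/
def sg (f : X → G) (x : X × Bool) : G := if x.2 then f x.1 else (f x.1)⁻¹

theorem sg_true (f : X → G) (x : X) : sg f (x, true) = f x := rfl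
theorem sg_false (f : X → G) (x : X) : sg f (x, false) = (f x)⁻¹ := rfl

/-- the formal inverse of a letter -/
def inv (x : X × Bool) : X × Bool := (x.1, !x.2)

theorem inv_inv (x : X × Bool) : inv (inv x) = x := by simp [inv]

theorem sg_inv (f : X → G) (x : X × Bool) : sg f (inv x) = (sg f x)⁻¹ := by
  obtain ⟨x, b⟩ := x
  cases b <;> simp [sg, inv]

theorem map_sg (φ : G →* H) (f : X → G) (x : X × Bool) : φ (sg f x) = sg (φ ∘ f) x := by
  unfold sg; split_ifs <;> simp

/-- product of the first `n` letters. -/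
def W (f : X → G) (ℓ : ℕ → X × Bool) : ℕ → G
  | 0 => 1
  | n + 1 => W f ℓ n * sg f (ℓ n)

theorem W_zero (f : X → G) (ℓ : ℕ → X × Bool) : W f ℓ 0 = 1 := rfl
theorem W_succ (f : X → G) (ℓ : ℕ → X × Bool) (n : ℕ) : W f ℓ (n + 1) = W f ℓ n * sg f (ℓ n) := rfl

theorem map_W (φ : G →* H) (f : X → G) (ℓ : ℕ → X × Bool) (n : ℕ) :
    φ (W f ℓ n) = W (φ ∘ f) ℓ n := by
  induction n with
  | zero => simp [W]
  | succ n ih => rw [W_succ, W_succ, map_mul, ih, map_sg]

theorem W_congr {f f' : X → G} {ℓ : ℕ → X × Bool} {n : ℕ} (h : ∀ i < n, f (ℓ i).1 = f' (ℓ i).1) :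
    W f ℓ n = W f' ℓ n := by
  induction n with
  | zero => rfl
  | succ n ih =>
    rw [W_succ, W_succ, ih (fun i hi => h i (by omega))]
    congr 1
    unfold sg
    rw [h n (by omega)]

theorem W_add (f : X → G) (ℓ : ℕ → X × Bool) (m n : ℕ) :
    W f ℓ (m + n) = W f ℓ m * W f (fun i => ℓ (m + i)) n := by
  induction n with
  | zero => simp [W]
  | succ n ih => rw [← add_assoc, W_succ, W_succ, ih, mul_assoc]

end basic

/-- a cyclically reduced cyclic word which is not a proper power -/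
structure Wd (X : Type) where
  ℓ : ℕ → X × Bool
  L : ℕ
  pos : 0 < L
  per : ∀ n, ℓ (n + L) = ℓ n
  red : ∀ n, ℓ (n + 1) ≠ inv (ℓ n)
  prim : ∀ d, (∀ n, ℓ (n + d) = ℓ n) → L ∣ d

namespace Wd
variable {X : Type} (w : Wd X)

theorem per_mul (n k : ℕ) : w.ℓ (n + w.L * k) = w.ℓ n := by
  induction k with
  | zero => simp
  | succ k ih => rw [Nat.mul_succ, ← add_assoc, w.per, ih]

theorem per_mod (n : ℕ) : w.ℓ (n % w.L) = w.ℓ n := by
  conv_rhs => rw [← Nat.mod_add_div n w.L]
  rw [w.per_mul]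

variable {G : Type*} [Group G] (f : X → G)

theorem W_L_add (n : ℕ) : W f w.ℓ (w.L + n) = W f w.ℓ w.L * W f w.ℓ n := by
  rw [W_add]
  congr 2
  funext i
  rw [add_comm, w.per]

theorem W_mul_add (k n : ℕ) : W f w.ℓ (w.L * k + n) = W f w.ℓ w.L ^ k * W f w.ℓ n := by
  induction k with
  | zero => simp
  | succ k ih =>
    rw [Nat.mul_succ, add_comm (w.L * k) w.L, add_assoc, W_L_add, ih, pow_succ', mul_assoc]

theorem W_mul (k : ℕ) : W f w.ℓ (w.L * k) = W f w.ℓ w.L ^ k := by
  have := w.W_mul_add f k 0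
  simpa [W] using this

/-- the one-relator group of a word. -/
abbrev B : Type := PresentedGroup ({W FreeGroup.of w.ℓ w.L} : Set (FreeGroup X))

/-- the generators -/
def b (x : X) : w.B := PresentedGroup.of x

theorem W_b : W w.b w.ℓ w.L = 1 := by
  have h : (PresentedGroup.mk ({W FreeGroup.of w.ℓ w.L} : Set (FreeGroup X)))
      (W FreeGroup.of w.ℓ w.L) = 1 := PresentedGroup.one_of_mem rfl
  rw [map_W] at h
  exact h

theorem W_b_add (n : ℕ) : W w.b w.ℓ (w.L + n) = W w.b w.ℓ n := by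
  rw [W_L_add, W_b, one_mul]

theorem W_b_mod (n : ℕ) : W w.b w.ℓ (n % w.L) = W w.b w.ℓ n := by
  conv_rhs => rw [← Nat.mod_add_div n w.L, add_comm, W_mul_add, W_b, one_pow, one_mul]

/-- the universal property -/
theorem exists_lift {H : Type*} [Group H] (g : X → H) (hg : W g w.ℓ w.L = 1) :
    ∃ φ : w.B →* H, ∀ x, φ (w.b x) = g x := by
  have h : ∀ r ∈ ({W FreeGroup.of w.ℓ w.L} : Set (FreeGroup X)), FreeGroup.lift g r = 1 := by
    intro r hr
    rw [Set.mem_singleton_iff] at hr
    subst hr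
    rw [map_W, ← hg]
    congr 1
    funext x
    simp
  exact ⟨PresentedGroup.toGroup h, fun x => PresentedGroup.toGroup.of h⟩

/-- Freiheitssatz -/
def Frei : Prop := ∀ (x : X), (∃ n, (w.ℓ n).1 = x) → ∀ (Y : Type) (g : Y → X),
  Function.Injective g → (∀ y, g y ≠ x) →
    Function.Injective (FreeGroup.lift (fun y => w.b (g y)))

/-- the order property -/
def Ord : Prop := ∃ (O : Type) (_ : LinearOrder O) (ρ : ℕ → O), (∀ n, ρ (n + w.L) = ρ n) ∧
  (∀ i j, ρ i = ρ j → i ≡ j [MOD w.L]) ∧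
  ∀ l : List (ℕ × ℕ), l ≠ [] → (∀ q ∈ l, ρ q.2 < ρ q.1) →
    (l.map (fun q => W w.b w.ℓ q.1 * (W w.b w.ℓ q.2)⁻¹)).prod ≠ 1

/-- all letters distinct -/
def Base : Prop := ∀ i j, i < w.L → j < w.L → (w.ℓ i).1 = (w.ℓ j).1 → i = j

theorem frei_base (h : w.Base) : w.Frei := by
  classical
  intro x hx Y g hg hgx
  obtain ⟨n, hn⟩ := hx
  obtain ⟨i, hi, hix⟩ : ∃ i, i < w.L ∧ (w.ℓ i).1 = x :=
    ⟨n % w.L, Nat.mod_lt _ w.pos, by rw [w.per_mod, hn]⟩
  -- the substitution
  let F0 : X → FreeGroup Y := fun x' => if h : ∃ y, g y = x' then FreeGroup.of h.choose else 1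
  have hF0 : ∀ y, F0 (g y) = FreeGroup.of y := by
    intro y
    have h1 : ∃ y', g y' = g y := ⟨y, rfl⟩
    have h2 : F0 (g y) = FreeGroup.of h1.choose := dif_pos h1
    rw [h2, hg h1.choose_spec]
  have hF0x : F0 x = 1 := by
    have h1 : ¬ ∃ y, g y = x := by rintro ⟨y, hy⟩; exact hgx y hy
    exact dif_neg h1
  set α := W F0 w.ℓ i with hα
  set v := α⁻¹ * (W F0 w.ℓ w.L)⁻¹ * α with hv
  let u : FreeGroup Y := if (w.ℓ i).2 then v else v⁻¹
  let F : X → FreeGroup Y := Function.update F0 x u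
  have hFx : sg F (w.ℓ i) = v := by
    have e : w.ℓ i = (x, (w.ℓ i).2) := by rw [← hix]
    rw [e]
    cases hb : (w.ℓ i).2
    · simp [sg, F, u, hb]
    · simp [sg, F, u, hb]
  have hF : ∀ x', x' ≠ x → F x' = F0 x' := fun x' h' => Function.update_of_ne h' _ _
  have hne : ∀ j, j < w.L → j ≠ i → (w.ℓ j).1 ≠ x := by
    intro j hj hji h'
    exact hji (h j i hj hi (by rw [h', hix]))
  have hsg : ∀ j, j < w.L → j ≠ i → sg F (w.ℓ j) = sg F0 (w.ℓ j) := by
    intro j hj hji
    unfold sg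
    rw [hF _ (hne j hj hji)]
  have h1 : ∀ n, n ≤ i → W F w.ℓ n = W F0 w.ℓ n := by
    intro n hn'
    apply W_congr
    intro j hj
    exact hF _ (hne j (by omega) (by omega))
  have h0i : sg F0 (w.ℓ i) = 1 := by
    unfold sg
    rw [hix, hF0x]
    simp
  have h2 : ∀ k, i + 1 + k ≤ w.L → W F w.ℓ (i + 1 + k) = α * v * α⁻¹ * W F0 w.ℓ (i + 1 + k) := by
    intro k
    induction k with
    | zero =>
      intro _
      rw [add_zero, W_succ, W_succ, h1 i le_rfl, hFx, h0i, ← hα]
      group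
    | succ k ih =>
      intro hk
      rw [← add_assoc, W_succ, W_succ, ih (by omega), hsg _ (by omega) (by omega), mul_assoc]
  have h3 : W F w.ℓ w.L = 1 := by
    obtain ⟨k, hk⟩ := Nat.exists_eq_add_of_lt hi
    have e : w.L = i + 1 + k := by omega
    have := h2 k (by omega)
    rw [← e] at this
    rw [this, hv]
    group
  obtain ⟨φ, hφ⟩ := w.exists_lift F h3
  have h4 : ∀ c, φ (FreeGroup.lift (fun y => w.b (g y)) c) = c := by
    intro c
    have : φ.comp (FreeGroup.lift (fun y => w.b (g y))) = MonoidHom.id _ := by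
      apply FreeGroup.ext_hom
      intro y
      simp only [MonoidHom.comp_apply, FreeGroup.lift_apply_of, MonoidHom.id_apply]
      rw [hφ, hF _ (hgx y), hF0]
    exact DFunLike.congr_fun this c
  intro c c' hcc
  rw [← h4 c, hcc, h4 c']

theorem ord_base (h : w.Base) : w.Ord := by
  classical
  have hpos := w.pos
  -- the weight
  let val : ℕ → ℤ := fun i => if i + 1 = w.L then -((w.L : ℤ) - 1) else 1
  let f : X → Multiplicative ℤ := fun x =>
    if h : ∃ i, i < w.L ∧ (w.ℓ i).1 = x then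
      (if (w.ℓ h.choose).2 then Multiplicative.ofAdd (val h.choose)
        else Multiplicative.ofAdd (-(val h.choose))) else 1
  have hf : ∀ i, i < w.L → sg f (w.ℓ i) = Multiplicative.ofAdd (val i) := by
    intro i hi
    have h1 : ∃ j, j < w.L ∧ (w.ℓ j).1 = (w.ℓ i).1 := ⟨i, hi, rfl⟩
    have h2 : h1.choose = i := h _ _ h1.choose_spec.1 hi h1.choose_spec.2
    have h3 : f (w.ℓ i).1 = (if (w.ℓ i).2 then Multiplicative.ofAdd (val i)
        else Multiplicative.ofAdd (-(val i))) := by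
      have : f (w.ℓ i).1 = (if (w.ℓ h1.choose).2 then Multiplicative.ofAdd (val h1.choose)
        else Multiplicative.ofAdd (-(val h1.choose))) := dif_pos h1
      rw [this, h2]
    unfold sg
    rw [h3]
    cases (w.ℓ i).2 <;> simp
  have hW : ∀ n, n < w.L → W f w.ℓ n = Multiplicative.ofAdd (n : ℤ) := by
    intro n
    induction n with
    | zero => intro _; simp [W]
    | succ n ih =>
      intro hn
      rw [W_succ, ih (by omega), hf n (by omega), ← ofAdd_add]
      have : val n = 1 := if_neg (by omega)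
      rw [this]; push_cast; rfl
  have hWL : W f w.ℓ w.L = 1 := by
    obtain ⟨k, hk⟩ := Nat.exists_eq_succ_of_ne_zero hpos.ne'
    have e : w.L = k + 1 := hk
    rw [e, W_succ, hW k (by omega), hf k (by omega), ← ofAdd_add]
    have : val k = -((w.L : ℤ) - 1) := if_pos (by omega)
    rw [this, e]; push_cast
    simp
  obtain ⟨φ, hφ⟩ := w.exists_lift f hWL
  have hφW : ∀ n, φ (W w.b w.ℓ n) = Multiplicative.ofAdd ((n % w.L : ℕ) : ℤ) := by
    intro n
    rw [← w.W_b_mod, map_W, ← hW _ (Nat.mod_lt n hpos)]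
    congr 1
    funext x
    exact hφ x
  refine ⟨ℕ, inferInstance, fun n => n % w.L, ?_, ?_, ?_⟩
  · intro n; simp
  · intro i j hij; exact hij
  · intro l hl hlt hprod
    have h1 := congrArg φ hprod
    rw [map_one, map_list_prod, List.map_map] at h1
    have key : ∀ l : List (ℕ × ℕ), (∀ q ∈ l, q.2 % w.L < q.1 % w.L) →
        ∃ s : ℤ, (l.length : ℤ) ≤ s ∧ (l.map (φ ∘ fun q => W w.b w.ℓ q.1 *
          (W w.b w.ℓ q.2)⁻¹)).prod = Multiplicative.ofAdd s := by
      intro l
      induction l with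
      | nil => intro _; exact ⟨0, by simp, by simp⟩
      | cons q l ih =>
        intro hq
        obtain ⟨s, hs, hs'⟩ := ih (fun q' hq' => hq q' (List.mem_cons_of_mem _ hq'))
        have hq0 := hq q List.mem_cons_self
        refine ⟨((q.1 % w.L : ℕ) : ℤ) - ((q.2 % w.L : ℕ) : ℤ) + s, ?_, ?_⟩
        · rw [List.length_cons]; push_cast; omega
        · rw [List.map_cons, List.prod_cons, hs']
          simp only [Function.comp_apply, map_mul, map_inv, hφW]
          rw [← ofAdd_neg, ← ofAdd_add, ← ofAdd_add]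
          rfl
    obtain ⟨s, hs, hs'⟩ := key l hlt
    rw [hs'] at h1
    have h2 : s = 0 := h1
    have : l.length ≠ 0 := fun h0 => hl (List.length_eq_zero_iff.1 h0)
    omega

end Wd
end Pool.H679R3.OR
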