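import Pool.Agent.H679R3.OR.Wreath

set_option autoImplicit false

/-!
# Partial actions satisfying a relator are partial actions of the group
-/

namespace Pool.H679R3.OR

/-- partial actions -/
structure PA (X V : Type) where
  step : X × Bool → V → V → Prop
  det : ∀ {a : X × Bool} {v v' v'' : V}, step a v v' → step a v v'' → v' = v''
  symm : ∀ {a : X × Bool} {v v' : V}, step a v v' → step (inv a) v' v

namespace PA
variable {X V : Type} (P : PA X V)

/-- paths -/
def path : List (X × Bool) → V → V → Prop
  | [], v, v' => v = v'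
  | a :: l, v, v' => ∃ v1, P.step a v v1 ∧ path l v1 v'

theorem path_append {l l' : List (X × Bool)} {v v'' : V} :
    P.path (l ++ l') v v'' ↔ ∃ v', P.path l v v' ∧ P.path l' v' v'' := by
  induction l generalizing v with
  | nil => simp [path]
  | cons a l ih =>
    constructor
    · rintro ⟨v1, h1, h2⟩
      obtain ⟨v', h3, h4⟩ := ih.1 h2
      exact ⟨v', ⟨v1, h1, h3⟩, h4⟩
    · rintro ⟨v', ⟨v1, h1, h3⟩, h4⟩
      exact ⟨v1, h1, ih.2 ⟨v', h3, h4⟩⟩

theorem path_det {l : List (X × Bool)} {v v' v'' : V} (h : P.path l v v')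
    (h' : P.path l v v'') : v' = v'' := by
  induction l generalizing v with
  | nil => exact h.symm.trans h'
  | cons a l ih =>
    obtain ⟨v1, h1, h2⟩ := h
    obtain ⟨v2, h3, h4⟩ := h'
    have := P.det h1 h3
    subst this
    exact ih h2 h4

theorem path_step {l l' : List (X × Bool)} (hl : FreeGroup.Red.Step l l') {v v' : V}
    (h : P.path l v v') : P.path l' v v' := by
  cases hl with
  | @not L₁ L₂ x b =>
    obtain ⟨v1, h1, h2⟩ := P.path_append.1 h
    obtain ⟨v2, h3, v3, h4, h5⟩ := h2
    have h6 := P.symm h3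
    have h7 := P.det h4 h6
    subst h7
    exact P.path_append.2 ⟨_, h1, h5⟩

theorem path_red {l l' : List (X × Bool)} (hl : FreeGroup.Red l l') {v v' : V}
    (h : P.path l v v') : P.path l' v v' := by
  induction hl with
  | refl => exact h
  | tail _ h2 ih => exact P.path_step h2 ih

/-- paths labelled by elements of the free group -/
def R (c : FreeGroup X) (v v' : V) : Prop := ∃ l, FreeGroup.mk l = c ∧ P.path l v v'

theorem R_det {c : FreeGroup X} {v v' v'' : V} (h : P.R c v v') (h' : P.R c v v'') :
    v' = v'' := by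
  obtain ⟨l1, h1, h2⟩ := h
  obtain ⟨l2, h3, h4⟩ := h'
  obtain ⟨l, h5, h6⟩ := FreeGroup.Red.exact.1 (h1.trans h3.symm)
  exact P.path_det (P.path_red h5 h2) (P.path_red h6 h4)

theorem R_one (v : V) : P.R 1 v v := ⟨[], rfl, rfl⟩

theorem R_mul {c c' : FreeGroup X} {v v' v'' : V} (h : P.R c v v') (h' : P.R c' v' v'') :
    P.R (c * c') v v'' := by
  obtain ⟨l1, rfl, h2⟩ := h
  obtain ⟨l2, rfl, h4⟩ := h'
  exact ⟨l1 ++ l2, rfl, P.path_append.2 ⟨_, h2, h4⟩⟩

theorem mk_single (a : X × Bool) : FreeGroup.mk [a] = sg FreeGroup.of a := by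
  obtain ⟨x, b⟩ := a
  cases b
  · rfl
  · rfl

theorem R_letter {a : X × Bool} {v v' : V} (h : P.step a v v') :
    P.R (sg FreeGroup.of a) v v' := ⟨[a], mk_single a, v', h, rfl⟩

theorem R_inv {c : FreeGroup X} {v v' : V} (h : P.R c v v') : P.R c⁻¹ v' v := by
  obtain ⟨l, rfl, h⟩ := h
  induction l generalizing v with
  | nil =>
    have : v = v' := h
    subst this
    have e : (FreeGroup.mk ([] : List (X × Bool)))⁻¹ = 1 := by
      rw [FreeGroup.inv_mk]; rfl
    rw [e]
    exact P.R_one v
  | cons a l ih =>
    obtain ⟨v1, h1, h2⟩ := h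
    have e : FreeGroup.mk (a :: l) = sg FreeGroup.of a * FreeGroup.mk l := by
      rw [← mk_single, FreeGroup.mul_mk]; rfl
    rw [e, mul_inv_rev, ← sg_inv]
    exact P.R_mul (ih h2) (P.R_letter (P.symm h1))

end PA

namespace Wd
variable {X : Type} (w : Wd X)

section coll
variable {K : ℕ}

/-- the subgroup generated by the relator conjugates at the vertices in `Φ` -/
def NN (K : ℕ) (Φ : Finset (w.P K)) : Subgroup (FreeGroup X) :=
  Subgroup.closure {y | ∃ u, FreeGroup.lift (w.p K) u ∈ Φ ∧
    y = u * W FreeGroup.of w.ℓ (w.L * K) * u⁻¹}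

theorem NN_mono {Φ Ψ : Finset (w.P K)} (h : Φ ⊆ Ψ) : w.NN K Φ ≤ w.NN K Ψ := by
  apply Subgroup.closure_mono
  rintro y ⟨u, hu, rfl⟩
  exact ⟨u, h hu, rfl⟩

theorem exists_NN (c : FreeGroup X) (hc : FreeGroup.lift (w.p K) c = 1) :
    ∃ Φ : Finset (w.P K), c ∈ w.NN K Φ := by
  classical
  rw [← mk_eq_lift] at hc
  have h1 : c ∈ Subgroup.normalClosure
      ({W FreeGroup.of w.ℓ (w.L * K)} : Set (FreeGroup X)) :=
    (QuotientGroup.eq_one_iff c).1 hc
  unfold Subgroup.normalClosure at h1
  induction h1 using Subgroup.closure_induction with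
  | mem x hx =>
    obtain ⟨a, ha, hx⟩ := Group.mem_conjugatesOfSet_iff.1 hx
    rw [Set.mem_singleton_iff] at ha
    subst ha
    obtain ⟨u, hu⟩ := isConj_iff.1 hx
    refine ⟨{FreeGroup.lift (w.p K) u}, Subgroup.subset_closure ⟨u, ?_, hu.symm⟩⟩
    exact Finset.mem_singleton_self _
  | one => exact ⟨∅, one_mem _⟩
  | mul x y hx hy ihx ihy =>
    have hx' : (PresentedGroup.mk ({W FreeGroup.of w.ℓ (w.L * K)} : Set (FreeGroup X))) x = 1 :=
      (QuotientGroup.eq_one_iff x).2 hx
    have hy' : (PresentedGroup.mk ({W FreeGroup.of w.ℓ (w.L * K)} : Set (FreeGroup X))) y = 1 :=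
      (QuotientGroup.eq_one_iff y).2 hy
    obtain ⟨Φ, h1⟩ := ihx hx'
    obtain ⟨Ψ, h2⟩ := ihy hy'
    exact ⟨Φ ∪ Ψ, mul_mem (w.NN_mono Finset.subset_union_left h1)
      (w.NN_mono Finset.subset_union_right h2)⟩
  | inv x hx ihx =>
    have hx' : (PresentedGroup.mk ({W FreeGroup.of w.ℓ (w.L * K)} : Set (FreeGroup X))) x = 1 :=
      (QuotientGroup.eq_one_iff x).2 hx
    obtain ⟨Φ, h1⟩ := ihx hx'
    exact ⟨Φ, inv_mem h1⟩

theorem exists_minimal (hR : w.Root) (Φ : Finset (w.P K)) (hΦ : Φ.Nonempty) :
    ∃ g ∈ Φ, ∀ h ∈ Φ, ∀ n, h * W (w.p K) w.ℓ n = g → w.L ∣ n := by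
  obtain ⟨φ, hφ⟩ := w.exists_bar K
  let r : Φ → Φ → Prop := fun h g => ∃ l : List ℕ, l ≠ [] ∧ (∀ p ∈ l, ¬ w.L ∣ p) ∧
    φ h.1 * (l.map (W w.b w.ℓ)).prod = φ g.1
  have hirr : Std.Irrefl r := by
    constructor
    rintro h ⟨l, h1, h2, h3⟩
    apply hR l h1 h2
    exact mul_eq_left.1 h3
  have htr : IsTrans Φ r := by
    constructor
    rintro a b c ⟨l, h1, h2, h3⟩ ⟨l', h1', h2', h3'⟩
    refine ⟨l ++ l', by simp [h1], ?_, ?_⟩
    · intro p hp
      rcases List.mem_append.1 hp with hp | hp
      · exact h2 p hp
      · exact h2' p hp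
    · rw [List.map_append, List.prod_append, ← mul_assoc, h3, h3']
  have hwf : WellFounded r := Finite.wellFounded_of_trans_of_irrefl r
  obtain ⟨g0, hg0⟩ := hΦ
  obtain ⟨g, -, hg⟩ := hwf.has_min Set.univ ⟨⟨g0, hg0⟩, trivial⟩
  refine ⟨g.1, g.2, fun h hh n hn => ?_⟩
  by_contra hd
  apply hg ⟨h, hh⟩ trivial
  refine ⟨[n], by simp, by simpa using hd, ?_⟩
  rw [List.map_singleton, List.prod_singleton, ← hn, map_mul, hφ]

theorem collapse (hR : w.Root) {V : Type} (P : PA X V)
    (hs : ∀ v, P.R (W FreeGroup.of w.ℓ (w.L * K)) v v) :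
    ∀ c, FreeGroup.lift (w.p K) c = 1 → ∀ v v', P.R c v v' → v = v' := by
  classical
  have key : ∀ N, ∀ Φ : Finset (w.P K), Φ.card ≤ N → ∀ c ∈ w.NN K Φ,
      ∀ v v', P.R c v v' → v = v' := by
    intro N
    induction N with
    | zero =>
      intro Φ hΦ c hc v v' h
      have h0 : Φ = ∅ := Finset.card_eq_zero.1 (by omega)
      subst h0
      have h1 : c = 1 := by
        have : w.NN K ∅ = ⊥ := by
          unfold NN
          rw [Subgroup.closure_eq_bot_iff]
          rintro y ⟨u, hu, -⟩
          simp at hu
        rw [this] at hc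
        exact Subgroup.mem_bot.1 hc
      subst h1
      exact P.R_det (P.R_one v) h
    | succ N ih =>
      intro Φ hΦ c hc v v' h
      rcases Φ.eq_empty_or_nonempty with h0 | hne
      · exact ih Φ (by rw [h0]; simp) c hc v v' h
      obtain ⟨g, hg, hmin⟩ := w.exists_minimal hR Φ hne
      set sK := W FreeGroup.of w.ℓ (w.L * K) with hsK
      set σ : w.P K := W (w.p K) w.ℓ w.L with hσ
      have hπsK : FreeGroup.lift (w.p K) sK = 1 := by rw [hsK, lift_W, w.W_p]
      obtain ⟨T, hT1, hT2, hT3, hT4, hT5⟩ := exists_T (X := X) (Q := w.P K)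
        (Z := FreeGroup X) (w.p K) FreeGroup.of g (w.ℓ 0) sK⁻¹
      have hT0 : ∀ v, (T 1).left v = 1 := by
        intro v; rw [map_one]; rfl
      have htri : ∀ a v, (T (sg FreeGroup.of a)).left v = sg FreeGroup.of a ∨
          (T (sg FreeGroup.of a)).left v = sK⁻¹ * sg FreeGroup.of a ∨
          (T (sg FreeGroup.of a)).left v = sg FreeGroup.of a * sK := by
        intro a v
        by_cases h1 : a = w.ℓ 0 ∧ v = g
        · right; left
          rw [h1.1, h1.2]; exact hT4
        · by_cases h2 : a = inv (w.ℓ 0) ∧ v * sg (w.p K) a = g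
          · right; right
            have h3 := hT5 v (by rw [← h2.1]; exact h2.2)
            rw [h2.1, h3, _root_.inv_inv]
          · left; exact hT3 v a h1 h2
      -- transport of paths
      have hcons : ∀ (a : X × Bool) (l : List (X × Bool)),
          FreeGroup.mk (a :: l) = sg FreeGroup.of a * FreeGroup.mk l := by
        intro a l
        rw [← PA.mk_single, FreeGroup.mul_mk]; rfl
      have hpath : ∀ c m m', P.R c m m' → ∀ v, P.R ((T c).left v) m m' := by
        rintro c m m' ⟨l, rfl, hl⟩
        induction l generalizing m with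
        | nil =>
          intro v
          have : m = m' := hl
          subst this
          have e : FreeGroup.mk ([] : List (X × Bool)) = 1 := rfl
          rw [e, hT0]
          exact P.R_one m
        | cons a l ihl =>
          intro v
          obtain ⟨m1, h1, h2⟩ := hl
          rw [hcons, hT2]
          refine P.R_mul ?_ (ihl m1 h2 _)
          have h3 := P.R_letter h1
          rcases htri a v with h4 | h4 | h4
          · rw [h4]; exact h3
          · rw [h4]; exact P.R_mul (P.R_inv (hs m)) h3
          · rw [h4]; exact P.R_mul h3 (hs m1)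
      have hπT : ∀ c v, FreeGroup.lift (w.p K) ((T c).left v) = FreeGroup.lift (w.p K) c := by
        intro c
        obtain ⟨l, rfl⟩ : ∃ l, FreeGroup.mk l = c := Quot.exists_rep c
        induction l with
        | nil =>
          intro v
          have e : FreeGroup.mk ([] : List (X × Bool)) = 1 := rfl
          rw [e, hT0]
        | cons a l ihl =>
          intro v
          rw [hcons, hT2, map_mul, map_mul, ihl]
          congr 1
          rcases htri a v with h4 | h4 | h4
          · rw [h4]
          · rw [h4, map_mul, map_inv, hπsK]; simp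
          · rw [h4, map_mul, hπsK, mul_one]
      -- loops away from `g`
      have hfar : ∀ h : w.P K, (∀ n, h * W (w.p K) w.ℓ n ≠ g) →
          ∀ n, (T (W FreeGroup.of w.ℓ n)).left h = W FreeGroup.of w.ℓ n := by
        intro h hh n
        induction n with
        | zero => exact hT0 h
        | succ n ihn =>
          rw [W_succ, hT2, ihn, hT3]
          · rintro ⟨-, h2⟩
            rw [lift_W] at h2
            exact hh n h2
          · rintro ⟨-, h2⟩
            rw [lift_W, mul_assoc, ← W_succ] at h2
            exact hh (n + 1) h2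
      -- the loop at `g`
      have hat : ∀ n, 0 < n → n ≤ w.L * K →
          (T (W FreeGroup.of w.ℓ n)).left g = sK⁻¹ * W FreeGroup.of w.ℓ n := by
        intro n
        induction n with
        | zero => intro h0; omega
        | succ n ihn =>
          intro _ hn
          rcases Nat.eq_zero_or_pos n with h0 | h0
          · subst h0
            rw [W_succ, W_zero, one_mul, hT4]
          · rw [W_succ, hT2, ihn h0 (by omega), hT3, mul_assoc]
            · rintro ⟨-, hv⟩
              rw [lift_W] at hv
              have := Nat.le_of_dvd h0 (w.dvd_of_W_p hR n (mul_eq_left.1 hv))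
              omega
            · rintro ⟨ha, hv⟩
              rw [lift_W, mul_assoc, ← W_succ] at hv
              have h2 := Nat.le_of_dvd (by omega)
                (w.dvd_of_W_p hR (n + 1) (mul_eq_left.1 hv))
              have h3 : n + 1 = w.L * K := by omega
              apply w.red n
              rw [ha, inv_inv, h3]
              have := w.per_mul 0 K
              rw [zero_add] at this
              exact this
      have hloop : (T sK).left g = 1 := by
        by_cases h0 : 0 < w.L * K
        · rw [hsK, hat (w.L * K) h0 le_rfl, ← hsK]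
          group
        · have h1 : w.L * K = 0 := by omega
          have h2 : sK = 1 := by
            have : ∀ m, m = 0 → W (FreeGroup.of : X → FreeGroup X) w.ℓ m = 1 := by
              intro m hm; rw [hm]; rfl
            exact this _ h1
          have h3 : ∀ z, z = 1 → (T z).left g = 1 := by
            intro z hz; rw [hz]; exact hT0 g
          exact h3 _ h2
      have hinv : ∀ u v, (T u).left v * (T u⁻¹).left (v * FreeGroup.lift (w.p K) u) = 1 := by
        intro u v
        rw [← hT2, mul_inv_cancel, hT0]
      -- the loops through `g`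
      have hthr : ∀ h : w.P K, g⁻¹ * h ∈ Subgroup.zpowers σ → (T sK).left h = 1 := by
        intro h hh
        obtain ⟨z, hz⟩ := Subgroup.mem_zpowers_iff.1 hh
        set y : FreeGroup X := (W FreeGroup.of w.ℓ w.L) ^ (-z) with hy
        have hπy : FreeGroup.lift (w.p K) y = σ ^ (-z) := by
          rw [hy, map_zpow, lift_W]
        have h1 : h * FreeGroup.lift (w.p K) y = g := by
          rw [hπy, zpow_neg, hz]; group
        have h2 : sK = y * sK * y⁻¹ := by
          have hc : Commute y sK := by
            rw [hy, hsK, w.W_mul]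
            exact ((Commute.refl _).zpow_left _).pow_right _
          rw [hc.eq]; group
        have h3 := hinv y h
        rw [h2, hT2, hT2, map_mul, hπsK, mul_one, h1, hloop, mul_one]
        rw [h1] at h3
        exact h3
      -- the smaller set
      set Φ' : Finset (w.P K) := Φ.filter (fun h => g⁻¹ * h ∉ Subgroup.zpowers σ) with hΦ'
      have hcard : Φ'.card ≤ N := by
        have h1 : Φ'.card < Φ.card := by
          apply Finset.card_lt_card
          refine ⟨Finset.filter_subset _ _, fun hsub => ?_⟩
          have h2 := (Finset.mem_filter.1 (hsub hg)).2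
          apply h2
          rw [inv_mul_cancel]
          exact one_mem _
        omega
      have hmap : ∀ c ∈ w.NN K Φ, FreeGroup.lift (w.p K) c = 1 ∧ (T c).left 1 ∈ w.NN K Φ' := by
        intro c hc
        unfold NN at hc
        induction hc using Subgroup.closure_induction with
        | mem x hx =>
          obtain ⟨u, hu, rfl⟩ := hx
          have h1 : FreeGroup.lift (w.p K) (u * sK * u⁻¹) = 1 := by
            rw [map_mul, map_mul, hπsK, map_inv]; group
          refine ⟨h1, ?_⟩
          have h2 := hinv u 1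
          rw [one_mul] at h2
          have h3 : (T (u * sK * u⁻¹)).left 1 = (T u).left 1 *
              (T sK).left (FreeGroup.lift (w.p K) u) * ((T u).left 1)⁻¹ := by
            rw [hT2, hT2, map_mul, hπsK, mul_one, one_mul, eq_inv_of_mul_eq_one_right h2]
          rw [h3]
          by_cases h4 : g⁻¹ * FreeGroup.lift (w.p K) u ∈ Subgroup.zpowers σ
          · rw [hthr _ h4]
            have : (T u).left 1 * 1 * ((T u).left 1)⁻¹ = 1 := by group
            rw [this]
            exact one_mem _
          · have h5 : (T sK).left (FreeGroup.lift (w.p K) u) = sK := by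
              apply hfar
              intro n hn
              obtain ⟨j, rfl⟩ := hmin _ hu n hn
              apply h4
              have hn' : FreeGroup.lift (w.p K) u * σ ^ j = g := by
                rw [hσ, ← w.W_mul (w.p K) j]; exact hn
              rw [← hn']
              have : (FreeGroup.lift (w.p K) u * σ ^ j)⁻¹ * FreeGroup.lift (w.p K) u =
                  σ ^ (-(j : ℤ)) := by
                rw [zpow_neg, zpow_natCast]; group
              rw [this]
              exact Subgroup.zpow_mem _ (Subgroup.mem_zpowers σ) _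
            rw [h5]
            apply Subgroup.subset_closure
            refine ⟨(T u).left 1, ?_, rfl⟩
            rw [hπT]
            exact Finset.mem_filter.2 ⟨hu, h4⟩
        | one => exact ⟨map_one _, by rw [hT0]; exact one_mem _⟩
        | mul x y _ _ ihx ihy =>
          refine ⟨by rw [map_mul, ihx.1, ihy.1, mul_one], ?_⟩
          rw [hT2, ihx.1, mul_one]
          exact mul_mem ihx.2 ihy.2
        | inv x _ ihx =>
          refine ⟨by rw [map_inv, ihx.1, inv_one], ?_⟩
          have h2 := hinv x 1
          rw [ihx.1, mul_one] at h2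
          rw [eq_inv_of_mul_eq_one_right h2]
          exact inv_mem ihx.2
      exact ih Φ' hcard _ (hmap c hc).2 v v' (hpath c v v' h 1)
  intro c hc v v' h
  obtain ⟨Φ, hΦ⟩ := w.exists_NN c hc
  exact key _ Φ le_rfl c hΦ v v' h

end coll
end Wd
end Pool.H679R3.OR
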