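import Mathlib
import Pool.Agent.Helper707.IModel

set_option autoImplicit false

/-!
# Presentations of inverse monoids: the quotient is an inverse monoid and is universal
-/

namespace Pool.H679R3.OR.Inv
open Pool.Agent.Helper707.IAlg Pool.Agent.Helper707.IModel

section uniq
variable {A M : Type} [Monoid M] {f : A ⊕ A → M}

theorem idem_eq (hf : IsInvGen f) (w : List (A ⊕ A)) (hw : ev f w * ev f w = ev f w) :
    ev f w * ev f (nu w) = ev f w := by
  set g := ev f w with hg
  set g' := ev f (nu w) with hg'
  have r1 : g * g' * g = g := hf.reg w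
  have r2 : g' * g * g' = g' := by
    have := hf.reg (nu w)
    rw [nu_nu] at this
    exact this
  have c1 : g * g' * (g' * g) = g' * g * (g * g') := by
    have := hf.comm w (nu w)
    rw [nu_nu] at this
    exact this
  have h1 : g' * g * (g * g') = g' := by
    calc g' * g * (g * g') = g' * (g * g) * g' := by simp only [mul_assoc]
      _ = g' := by rw [hw, r2]
  have h3 : g' * g' = g' := by
    calc g' * g' = (g' * g * (g * g')) * (g * g' * (g' * g)) := by rw [c1, h1]
      _ = g' * g * ((g * g' * g) * g' * (g' * g)) := by simp only [mul_assoc]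
      _ = g' * g * (g * g' * (g' * g)) := by rw [r1]
      _ = g' * g * (g' * g * (g * g')) := by rw [c1]
      _ = (g' * g * g') * g * (g * g') := by simp only [mul_assoc]
      _ = g' := by rw [r2, h1]
  have h4 : g = g' := by
    calc g = g * g' * g := r1.symm
      _ = g * (g' * g') * g := by rw [h3]
      _ = g * g' * (g' * g) := by simp only [mul_assoc]
      _ = g' := by rw [c1, h1]
  rw [← h4]
  exact hw

theorem idem_comm (hf : IsInvGen f) (hs : ∀ x : M, ∃ u, ev f u = x) {a b : M} (ha : a * a = a)
    (hb : b * b = b) : a * b = b * a := by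
  obtain ⟨u, rfl⟩ := hs a
  obtain ⟨v, rfl⟩ := hs b
  have h1 := idem_eq hf u ha
  have h2 := idem_eq hf v hb
  have h3 := hf.comm u v
  rw [h1, h2] at h3
  exact h3

theorem unique_of_comm {M : Type} [Monoid M] (hc : ∀ a b : M, a * a = a → b * b = b → a * b = b * a)
    {x y z : M} (h1 : x * y * x = x) (h2 : y * x * y = y) (h3 : x * z * x = x)
    (h4 : z * x * z = z) : y = z := by
  have i1 : (x * y) * (x * y) = x * y := by rw [← mul_assoc, h1]
  have i2 : (x * z) * (x * z) = x * z := by rw [← mul_assoc, h3]
  have i3 : (y * x) * (y * x) = y * x := by rw [← mul_assoc, h2]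
  have i4 : (z * x) * (z * x) = z * x := by rw [← mul_assoc, h4]
  have e1 : y = y * x * z := by
    calc y = y * x * y := h2.symm
      _ = y * (x * z * x) * y := by rw [h3]
      _ = y * ((x * z) * (x * y)) := by simp only [mul_assoc]
      _ = y * ((x * y) * (x * z)) := by rw [hc _ _ i1 i2]
      _ = (y * x * y) * x * z := by simp only [mul_assoc]
      _ = y * x * z := by rw [h2]
  have e2 : z = y * x * z := by
    calc z = z * x * z := h4.symm
      _ = z * (x * y * x) * z := by rw [h1]
      _ = ((z * x) * (y * x)) * z := by simp only [mul_assoc]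
      _ = ((y * x) * (z * x)) * z := by rw [hc _ _ i4 i3]
      _ = y * x * (z * x * z) := by simp only [mul_assoc]
      _ = y * x * z := by rw [h4]
  rw [e1, ← e2]

theorem existsUnique_inv (hf : IsInvGen f) (hs : ∀ x : M, ∃ u, ev f u = x) (x : M) :
    ∃! y : M, x * y * x = x ∧ y * x * y = y := by
  obtain ⟨u, rfl⟩ := hs x
  have r2 := hf.reg (nu u)
  rw [nu_nu] at r2
  refine ⟨ev f (nu u), ⟨hf.reg u, r2⟩, ?_⟩
  rintro y ⟨h1, h2⟩
  exact unique_of_comm (fun a b ha hb => idem_comm hf hs ha hb) h1 h2 (hf.reg u) r2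

end uniq

section univ
variable {A N : Type} [Monoid N]

theorem comm_of_unique (hN : ∀ x : N, ∃! y : N, x * y * x = x ∧ y * x * y = y) {e f : N}
    (he : e * e = e) (hf : f * f = f) : e * f = f * e := by
  have key : ∀ {e f : N}, e * e = e → f * f = f → (e * f) * (e * f) = e * f := by
    intro e f he hf
    obtain ⟨x, ⟨h1, h2⟩, -⟩ := hN (e * f)
    obtain ⟨y, -, hy⟩ := hN (e * f)
    have h3 : e * f * (f * x * e) * (e * f) = e * f := by
      calc e * f * (f * x * e) * (e * f) = e * (f * f) * x * (e * e) * f := by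
            simp only [mul_assoc]
        _ = e * f * x * (e * f) := by rw [he, hf]; simp only [mul_assoc]
        _ = e * f := h1
    have h4 : f * x * e * (e * f) * (f * x * e) = f * x * e := by
      calc f * x * e * (e * f) * (f * x * e) = f * x * (e * e) * (f * f) * x * e := by
            simp only [mul_assoc]
        _ = f * (x * (e * f) * x) * e := by rw [he, hf]; simp only [mul_assoc]
        _ = f * x * e := by rw [h2]
    have h5 : x = f * x * e := (hy x ⟨h1, h2⟩).trans (hy _ ⟨h3, h4⟩).symm
    have h6 : x * x = x := by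
      calc x * x = (f * x * e) * (f * x * e) := by rw [← h5]
        _ = f * (x * (e * f) * x) * e := by simp only [mul_assoc]
        _ = x := by rw [h2, ← h5]
    obtain ⟨z, -, hz⟩ := hN x
    have h7 : e * f = x := by
      have a1 := hz (e * f) ⟨h2, h1⟩
      have a2 := hz x ⟨by rw [h6, h6], by rw [h6, h6]⟩
      rw [a1, a2]
    rw [h7, h6]
  have k1 := key he hf
  have k2 := key hf he
  obtain ⟨z, -, hz⟩ := hN (e * f)
  have a1 := hz (e * f) ⟨by rw [k1, k1], by rw [k1, k1]⟩
  have a2 := hz (f * e) ⟨by
    calc e * f * (f * e) * (e * f) = e * (f * f) * (e * e) * f := by simp only [mul_assoc]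
      _ = e * f * (e * f) := by rw [he, hf]; simp only [mul_assoc]
      _ = e * f := k1, by
    calc f * e * (e * f) * (f * e) = f * (e * e) * (f * f) * e := by simp only [mul_assoc]
      _ = f * e * (f * e) := by rw [he, hf]; simp only [mul_assoc]
      _ = f * e := k2⟩
  rw [a1, a2]

variable (f : A ⊕ A → N)

theorem inv_word (hN : ∀ x : N, ∃! y : N, x * y * x = x ∧ y * x * y = y)
    (hf : ∀ b : A, f (Sum.inl b) * f (Sum.inr b) * f (Sum.inl b) = f (Sum.inl b) ∧
      f (Sum.inr b) * f (Sum.inl b) * f (Sum.inr b) = f (Sum.inr b)) (u : List (A ⊕ A)) :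
    ev f u * ev f (nu u) * ev f u = ev f u ∧ ev f (nu u) * ev f u * ev f (nu u) = ev f (nu u) := by
  have hf' : ∀ c : A ⊕ A, f c * f c.swap * f c = f c := by
    rintro (b | b)
    · exact (hf b).1
    · exact (hf b).2
  induction u with
  | nil => simp [nu, ev]
  | cons c u ih =>
    rw [nu_cons, ev_cons, ev_append, ev_singleton]
    set x := f c with hx
    set x' := f c.swap with hx'
    set y := ev f u with hy
    set y' := ev f (nu u) with hy'
    have h1 : x * x' * x = x := hf' c
    have h2 : x' * x * x' = x' := by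
      have := hf' c.swap
      rw [Sum.swap_swap] at this
      exact this
    obtain ⟨h3, h4⟩ := ih
    have i1 : (x' * x) * (x' * x) = x' * x := by rw [← mul_assoc, h2]
    have i2 : (y * y') * (y * y') = y * y' := by rw [← mul_assoc, h3]
    have hc := comm_of_unique hN i1 i2
    constructor
    · calc x * y * (y' * x') * (x * y) = x * ((y * y') * (x' * x)) * y := by simp only [mul_assoc]
        _ = x * ((x' * x) * (y * y')) * y := by rw [hc]
        _ = (x * x' * x) * (y * y' * y) := by simp only [mul_assoc]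
        _ = x * y := by rw [h1, h3]
    · calc y' * x' * (x * y) * (y' * x') = y' * ((x' * x) * (y * y')) * x' := by
            simp only [mul_assoc]
        _ = y' * ((y * y') * (x' * x)) * x' := by rw [hc]
        _ = (y' * y * y') * (x' * x * x') := by simp only [mul_assoc]
        _ = y' * x' := by rw [h2, h4]

theorem exists_hom (w : List (A ⊕ A))
    (hN : ∀ x : N, ∃! y : N, x * y * x = x ∧ y * x * y = y)
    (hf : ∀ b : A, f (Sum.inl b) * f (Sum.inr b) * f (Sum.inl b) = f (Sum.inl b) ∧
      f (Sum.inr b) * f (Sum.inl b) * f (Sum.inr b) = f (Sum.inr b))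
    (hw : (w.map f).prod = 1) :
    ∃ φ : (cg w).Quotient →* N, ∀ c, φ (gi w c) = f c := by
  have hev : ∀ u : FreeMonoid (A ⊕ A), FreeMonoid.lift f u = ev f (FreeMonoid.toList u) := by
    intro u
    rw [FreeMonoid.lift_apply]
    rfl
  have hle : cg w ≤ Con.ker (FreeMonoid.lift f) := by
    refine Con.conGen_le.2 ?_
    intro a b h
    rw [Con.ker_apply]
    rcases h with ⟨u, ha, hb⟩ | ⟨u, v, ha, hb⟩ | ⟨ha, hb⟩
    · rw [ha, hb, map_mul, map_mul]
      simp only [hev]
      exact (inv_word f hN hf _).1
    · rw [ha, hb]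
      simp only [map_mul]
      simp only [hev]
      apply comm_of_unique hN
      · rw [← mul_assoc]
        have := (inv_word f hN hf (FreeMonoid.toList u)).1
        show ev f _ * ev f (nu (FreeMonoid.toList u)) * ev f _ * ev f (nu (FreeMonoid.toList u)) = _
        rw [this]
        rfl
      · rw [← mul_assoc]
        have := (inv_word f hN hf (FreeMonoid.toList v)).1
        show ev f _ * ev f (nu (FreeMonoid.toList v)) * ev f _ * ev f (nu (FreeMonoid.toList v)) = _
        rw [this]
        rfl
    · rw [ha, hb, map_one, hev]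
      exact hw
  refine ⟨(cg w).lift (FreeMonoid.lift f) hle, fun c => ?_⟩
  show (cg w).lift (FreeMonoid.lift f) hle ((FreeMonoid.of c : FreeMonoid (A ⊕ A))) = f c
  rw [Con.lift_coe, FreeMonoid.lift_eval_of]

end univ

section group
variable {A G : Type} [Group G] (w : List (A ⊕ A))

/-- extension to inverse letters -/
def sx (f : A → G) : A ⊕ A → G := Sum.elim f (fun a => (f a)⁻¹)

theorem sx_swap (f : A → G) (c : A ⊕ A) : sx f c.swap = (sx f c)⁻¹ := by
  cases c <;> simp [sx]

theorem ev_nu_sx (f : A → G) (u : List (A ⊕ A)) : ev (sx f) (nu u) = (ev (sx f) u)⁻¹ := by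
  induction u with
  | nil => simp [nu, ev]
  | cons c u ih => rw [nu_cons, ev_append, ev_singleton, ev_cons, ih, sx_swap, mul_inv_rev]

theorem exists_grp (f : A → G) (x : List (A ⊕ A)) (V : List (List (A ⊕ A)))
    (hx : ev (sx f) x = 1) :
    ∃ φ : (cg (rel x V)).Quotient →* G, ∀ u, φ (ev (gi (rel x V)) u) = ev (sx f) u := by
  have hw : ((rel x V).map (sx f)).prod = 1 := by
    show ev (sx f) (rel x V) = 1
    rw [rel, ev_append, hx, one_mul]
    induction V with
    | nil => rfl
    | cons v V ih => rw [List.flatMap_cons, ev_append, ih, ev_append, ev_nu_sx]; group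
  obtain ⟨φ, hφ⟩ := exists_hom (sx f) (rel x V) (by
    intro x
    refine ⟨x⁻¹, ⟨by group, by group⟩, ?_⟩
    rintro y ⟨h1, -⟩
    have : x * y = 1 := mul_eq_right.1 h1
    exact eq_inv_of_mul_eq_one_right this) (by
    intro b
    simp [sx]) hw
  refine ⟨φ, fun u => ?_⟩
  induction u with
  | nil => rw [ev_nil, ev_nil, map_one]
  | cons c u ih => rw [ev_cons, ev_cons, map_mul, ih, hφ]

end group

theorem exists_word {A : Type} (w : List (A ⊕ A)) (x : (cg w).Quotient) :
    ∃ u, ev (gi w) u = x := by
  obtain ⟨u, rfl⟩ := Con.mk'_surjective x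
  refine ⟨FreeMonoid.toList u, ?_⟩
  rw [ev_gi]
  rfl

end Pool.H679R3.OR.Inv
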