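import Pool.Agent.H679R3.OR.Collapse
import Pool.Agent.H679R3.OR.Inv

set_option autoImplicit false

/-!
# The monoid: well-definedness of the units
-/

namespace Pool.H679R3.OR
open Pool.Agent.Helper707.IAlg Pool.Agent.Helper707.IModel

/-- encoding of letters -/
def enc {X : Type} (a : X × Bool) : (X ⊕ Bool) ⊕ (X ⊕ Bool) :=
  if a.2 then Sum.inl (Sum.inl a.1) else Sum.inr (Sum.inl a.1)

theorem enc_inv {X : Type} (a : X × Bool) : enc (inv a) = (enc a).swap := by
  obtain ⟨x, b⟩ := a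
  cases b <;> rfl

/-- the letters `p` (`false`) and `z` (`true`). -/
def lp {X : Type} (b : Bool) : (X ⊕ Bool) ⊕ (X ⊕ Bool) := Sum.inl (Sum.inr b)

/-- their inverses -/
def lq {X : Type} (b : Bool) : (X ⊕ Bool) ⊕ (X ⊕ Bool) := Sum.inr (Sum.inr b)

/-- bracketed words -/
def br {X : Type} (b b' : Bool) (l : List (X × Bool)) : List ((X ⊕ Bool) ⊕ (X ⊕ Bool)) :=
  lp b :: (l.map enc ++ [lq b'])

namespace Wd
variable {X : Type} (w : Wd X) (K : ℕ)

/-- prefixes -/
def pre (n : ℕ) : List (X × Bool) := (List.range n).map w.ℓ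

theorem mk_pre (n : ℕ) : FreeGroup.mk (w.pre n) = W FreeGroup.of w.ℓ n := by
  induction n with
  | zero => rfl
  | succ n ih =>
    rw [W_succ, ← ih, pre, List.range_succ, List.map_append, ← FreeGroup.mul_mk, List.map_singleton,
      PA.mk_single]
    rfl

theorem pre_add (m n : ℕ) : w.pre (m + n) = w.pre m ++ (List.range n).map (fun i => w.ℓ (m + i)) := by
  induction n with
  | zero => simp
  | succ n ih =>
    rw [← add_assoc, pre, List.range_succ, List.map_append, List.map_singleton, List.range_succ,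
      List.map_append, List.map_singleton, ← List.append_assoc, ← ih, pre]

theorem range_shift (k n : ℕ) : (List.range n).map (fun i => w.ℓ (w.L * k + i)) = w.pre n := by
  apply List.map_congr_left
  intro i _
  rw [add_comm, w.per_mul]

theorem pre_mul_add (k n : ℕ) : w.pre (w.L * k + n) = w.pre (w.L * k) ++ w.pre n := by
  rw [pre_add, range_shift]

/-- the readable words -/
structure Rd (Us : List (List (X × Bool))) {M : Type} [Monoid M]
    (f : (X ⊕ Bool) ⊕ (X ⊕ Bool) → M) : Prop where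
  hf : IsInvGen f
  r0 : ∀ m, Pt f (br false false (w.pre (w.L * K))) m m
  r1 : ∀ m n, n < w.L * K → ¬ w.L ∣ n →
    Pt f (br false false (w.pre n)) m (m * ev f (br false false (w.pre n)))
  r2 : ∀ m, ∀ u ∈ Us, ∀ t, t <+: u → Pt f (br true false t) m (m * ev f (br true false t))
  r3 : ∀ m, ∀ u ∈ Us, Pt f (br true true u) m (m * ev f (br true true u))

section
variable {K}
variable {Us : List (List (X × Bool))} {M : Type} [Monoid M] {f : (X ⊕ Bool) ⊕ (X ⊕ Bool) → M}
  (h : w.Rd K Us f)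

theorem _root_.Pool.H679R3.OR.br_split (hf : IsInvGen f) {b b' : Bool} {l : List (X × Bool)}
    {m m' : M} (h : Pt f (br b b' l) m m') :
    ∃ m0 m1, Pt f [lp b] m m0 ∧ Pt f (l.map enc) m0 m1 ∧ Pt f [lq b'] m1 m' := by
  obtain ⟨h1, h2⟩ := Pt.uncons hf h
  obtain ⟨h3, h4⟩ := Pt.split hf h2
  exact ⟨_, _, h1, h3, h4⟩

theorem _root_.Pool.H679R3.OR.lq_symm {b : Bool} {m m' : M} (h : Pt f [lq b] m m') :
    Pt f [lp b] m' m := h.symm

theorem _root_.Pool.H679R3.OR.lp_symm {b : Bool} {m m' : M} (h : Pt f [lp b] m m') :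
    Pt f [lq b] m' m := h.symm

/-- good vertices -/
def Good (f : (X ⊕ Bool) ⊕ (X ⊕ Bool) → M) (m : M) : Prop :=
  ∃ m0 mm j, Pt f [lp false] mm m0 ∧ Pt f ((w.pre (w.L * j)).map enc) m0 m

theorem good_of_in {mm m : M} (hm : Pt f [lp false] mm m) : w.Good f m :=
  ⟨m, mm, 0, hm, Pt.nil m⟩

/-- the partial action -/
def pa (f : (X ⊕ Bool) ⊕ (X ⊕ Bool) → M) : PA X {m : M // w.Good f m} where
  step a m m' := Pt f [enc a] m.1 m'.1
  det h h' := Subtype.ext (h.det h')
  symm := by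
    intro a v v' h
    have := h.symm
    rw [nu_singleton, ← enc_inv] at this
    exact this

include h in
theorem loop {mm m0 : M} (hm : Pt f [lp false] mm m0) :
    Pt f ((w.pre (w.L * K)).map enc) m0 m0 := by
  obtain ⟨m1, m2, h1, h2, h3⟩ := br_split h.hf (h.r0 mm)
  have e1 := h1.det hm
  subst e1
  have e2 := (lq_symm h3).det h1
  subst e2
  exact h2

include h in
theorem orbit (hK : 0 < K) {mm m0 : M} (hm : Pt f [lp false] mm m0) (n : ℕ) :
    Pt f ((w.pre n).map enc) m0 (m0 * ev f ((w.pre n).map enc)) ∧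
      w.Good f (m0 * ev f ((w.pre n).map enc)) ∧
      m0 * ev f ((w.pre (n + w.L * K)).map enc) = m0 * ev f ((w.pre n).map enc) := by
  have hLK : 0 < w.L * K := Nat.mul_pos w.pos hK
  have hloop := w.loop h hm
  have hadd : ∀ n, m0 * ev f ((w.pre (w.L * K + n)).map enc) = m0 * ev f ((w.pre n).map enc) := by
    intro n
    rw [pre_mul_add, List.map_append, ev_append, ← mul_assoc, hloop.1]
  refine ⟨?_, ?_, by rw [add_comm]; exact hadd n⟩
  · induction n using Nat.strong_induction_on with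
    | _ n ih =>
      by_cases hn : n ≤ w.L * K
      · obtain ⟨k, hk⟩ := Nat.exists_eq_add_of_le hn
        have h1 := hloop
        rw [hk, pre_add, List.map_append] at h1
        exact (h1.split h.hf).1
      · obtain ⟨k, hk⟩ := Nat.exists_eq_add_of_le (le_of_not_ge hn)
        have h1 := ih k (by omega)
        rw [hk, hadd, pre_mul_add, List.map_append]
        exact hloop.append h1
  · induction n using Nat.strong_induction_on with
    | _ n ih =>
      by_cases hn : n < w.L * K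
      · by_cases hd : w.L ∣ n
        · obtain ⟨j, rfl⟩ := hd
          obtain ⟨j', hj'⟩ := Nat.exists_eq_add_of_le (show w.L * j ≤ w.L * K from hn.le)
          have h1 := hloop
          rw [hj', pre_add, List.map_append] at h1
          exact ⟨m0, mm, j, hm, (h1.split h.hf).1⟩
        · obtain ⟨m1, m2, h1, h2, h3⟩ := br_split h.hf (h.r1 mm n hn hd)
          have e1 := h1.det hm
          subst e1
          rw [h2.1]
          exact w.good_of_in (lq_symm h3)
      · obtain ⟨k, hk⟩ := Nat.exists_eq_add_of_le (le_of_not_gt hn)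
        rw [hk, hadd]
        exact ih k (by omega)

include h in
theorem pa_loop (hK : 0 < K) (v : {m : M // w.Good f m}) :
    (w.pa f).R (W FreeGroup.of w.ℓ (w.L * K)) v v := by
  obtain ⟨m, m0, mm, j, hm, hj⟩ := v
  have hpath : ∀ a n, (w.pa f).path ((List.range n).map (fun i => w.ℓ (a + i)))
      ⟨_, (w.orbit h hK hm a).2.1⟩ ⟨_, (w.orbit h hK hm (a + n)).2.1⟩ := by
    intro a n
    induction n with
    | zero => rfl
    | succ n ih =>
      rw [List.range_succ, List.map_append, List.map_singleton]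
      refine (w.pa f).path_append.2 ⟨_, ih, ⟨_, (w.orbit h hK hm (a + (n + 1))).2.1⟩, ?_, rfl⟩
      show Pt f [enc (w.ℓ (a + n))] (m0 * ev f ((w.pre (a + n)).map enc))
        (m0 * ev f ((w.pre (a + (n + 1))).map enc))
      have h1 := (w.orbit h hK hm (a + (n + 1))).1
      have h2 : (w.pre (a + (n + 1))) = w.pre (a + n) ++ [w.ℓ (a + n)] := by
        rw [← add_assoc, pre, List.range_succ, List.map_append, List.map_singleton]; rfl
      rw [h2, List.map_append] at h1
      have h3 := (h1.split h.hf).2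
      rw [h2, List.map_append]
      exact h3
  have h1 := hpath (w.L * j) (w.L * K)
  rw [range_shift] at h1
  have e1 : m0 * ev f ((w.pre (w.L * j)).map enc) = m := hj.1
  have e2 : m0 * ev f ((w.pre (w.L * j + w.L * K)).map enc) = m := by
    rw [(w.orbit h hK hm (w.L * j)).2.2]
    exact e1
  refine ⟨w.pre (w.L * K), w.mk_pre _, ?_⟩
  have key : ∀ (v1 v2 : {m : M // w.Good f m}), v1.1 = m → v2.1 = m →
      (w.pa f).path (w.pre (w.L * K)) v1 v2 →
      (w.pa f).path (w.pre (w.L * K)) ⟨m, m0, mm, j, hm, hj⟩ ⟨m, m0, mm, j, hm, hj⟩ := by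
    rintro ⟨a1, b1⟩ ⟨a2, b2⟩ h1 h2 h3
    simp only at h1 h2
    subst h1
    subst h2
    exact h3
  exact key _ _ e1 e2 h1

include h in
theorem path_good (u : List (X × Bool)) : ∀ (m0 : M) (h0 : w.Good f m0),
    (∀ t, t <+: u → ∃ m1, Pt f (t.map enc) m0 m1 ∧ w.Good f m1) →
    ∃ (m' : M) (h' : w.Good f m'), Pt f (u.map enc) m0 m' ∧ (w.pa f).path u ⟨m0, h0⟩ ⟨m', h'⟩ := by
  induction u with
  | nil => intro m0 h0 _; exact ⟨m0, h0, Pt.nil m0, rfl⟩
  | cons a u ih =>
    intro m0 h0 hp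
    obtain ⟨m1, h1, h2⟩ := hp [a] ⟨u, rfl⟩
    obtain ⟨m', h', h3, h4⟩ := ih m1 h2 (by
      intro t ht
      obtain ⟨m2, h5, h6⟩ := hp (a :: t) (List.cons_prefix_cons.2 ⟨rfl, ht⟩)
      refine ⟨m2, ?_, h6⟩
      rw [List.map_cons] at h5
      obtain ⟨h7, h8⟩ := Pt.uncons h.hf h5
      have : Pt f [enc a] m0 m1 := h1
      rw [h7.det this] at h8
      exact h8)
    exact ⟨m', h', h1.append h3, ⟨m1, h2⟩, h1, h4⟩

include h in
theorem path_one {u : List (X × Bool)} (hu : u ∈ Us) {mm m0 : M} (hm : Pt f [lp true] mm m0)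
    (h0 : w.Good f m0) : ∃ (m' : M) (h' : w.Good f m'),
      (w.pa f).path u ⟨m0, h0⟩ ⟨m', h'⟩ ∧ Pt f [lp true] (mm * ev f (br true true u)) m' := by
  obtain ⟨m', h', h3, h4⟩ := w.path_good h u m0 h0 (by
    intro t ht
    obtain ⟨m1, m2, h1, h2, h3⟩ := br_split h.hf (h.r2 mm u hu t ht)
    have e1 := h1.det hm
    subst e1
    exact ⟨m2, h2, w.good_of_in (lq_symm h3)⟩)
  refine ⟨m', h', h4, ?_⟩
  obtain ⟨m1, m2, h1, h2, h5⟩ := br_split h.hf (h.r3 mm u hu)
  have e1 := h1.det hm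
  subst e1
  rw [h3.det h2]
  exact lq_symm h5

include h in
theorem path_list (us : List (List (X × Bool))) : ∀ (_ : ∀ u ∈ us, u ∈ Us) (mm m0 : M)
    (_ : Pt f [lp true] mm m0) (h0 : w.Good f m0), ∃ (m' : M) (h' : w.Good f m'),
      (w.pa f).path us.flatten ⟨m0, h0⟩ ⟨m', h'⟩ ∧
        Pt f [lp true] (mm * (us.map (fun u => ev f (br true true u))).prod) m' := by
  induction us with
  | nil =>
    intro _ mm m0 hm h0
    refine ⟨m0, h0, rfl, ?_⟩
    rw [List.map_nil, List.prod_nil, mul_one]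
    exact hm
  | cons u us ih =>
    intro hus mm m0 hm h0
    obtain ⟨m1, h1, h2, h3⟩ := w.path_one h (hus u List.mem_cons_self) hm h0
    obtain ⟨m2, h4, h5, h6⟩ := ih (fun v hv => hus v (List.mem_cons_of_mem _ hv)) _ m1 h3 h1
    refine ⟨m2, h4, ?_, ?_⟩
    · rw [List.flatten_cons]
      exact (w.pa f).path_append.2 ⟨_, h2, h5⟩
    · rw [List.map_cons, List.prod_cons, ← mul_assoc]
      exact h6

include h in
theorem prod_eq (hK : 0 < K) (hR : w.Root) (h0 : [] ∈ Us) {us vs : List (List (X × Bool))}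
    (hus : ∀ u ∈ us, u ∈ Us) (hvs : ∀ u ∈ vs, u ∈ Us)
    (he : FreeGroup.lift (w.p K) (FreeGroup.mk us.flatten) =
      FreeGroup.lift (w.p K) (FreeGroup.mk vs.flatten)) :
    (us.map (fun u => ev f (br true true u))).prod =
      (vs.map (fun u => ev f (br true true u))).prod := by
  obtain ⟨m0, m1, h1, h2, h3⟩ := br_split h.hf (h.r2 1 [] h0 [] ⟨[], rfl⟩)
  have e1 : m1 = m0 := h2.eq_nil
  subst e1
  have hg := w.good_of_in (lq_symm h3)
  obtain ⟨a, ha, ha1, ha2⟩ := w.path_list h us hus 1 m1 h1 hg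
  obtain ⟨b, hb, hb1, hb2⟩ := w.path_list h vs hvs 1 m1 h1 hg
  have k1 : (w.pa f).R (FreeGroup.mk us.flatten) ⟨m1, hg⟩ ⟨a, ha⟩ := ⟨_, rfl, ha1⟩
  have k2 : (w.pa f).R (FreeGroup.mk vs.flatten) ⟨m1, hg⟩ ⟨b, hb⟩ := ⟨_, rfl, hb1⟩
  have k3 := (w.pa f).R_mul ((w.pa f).R_inv k1) k2
  have k4 := w.collapse hR (w.pa f) (w.pa_loop h hK) _ (by
    rw [map_mul, map_inv, he, inv_mul_cancel]) _ _ k3
  have k5 : a = b := congrArg Subtype.val k4
  subst k5
  have k6 := (lp_symm ha2).det (lp_symm hb2)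
  rw [one_mul, one_mul] at k6
  exact k6

end
end Wd
end Pool.H679R3.OR
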