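import Pool.Agent.H679R3.OR.Mon

set_option autoImplicit false

/-!
# The monoid: every unit is a product of the expected ones
-/

namespace Pool.H679R3.OR
open Pool.Agent.Helper707.IAlg Pool.Agent.Helper707.IModel

theorem ev_map_enc {X G : Type} [Group G] (q : X → G) (r : Bool → G) (l : List (X × Bool)) :
    ev (Inv.sx (Sum.elim q r)) (l.map enc) = FreeGroup.lift q (FreeGroup.mk l) := by
  induction l with
  | nil => rfl
  | cons a l ih =>
    have e : FreeGroup.mk (a :: l) = sg FreeGroup.of a * FreeGroup.mk l := by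
      rw [← PA.mk_single, FreeGroup.mul_mk]; rfl
    rw [List.map_cons, ev_cons, ih, e, map_mul, lift_sg]
    congr 1
    obtain ⟨x, b⟩ := a
    cases b <;> rfl

theorem ev_br {X G : Type} [Group G] (q : X → G) (r : Bool → G) (b b' : Bool)
    (l : List (X × Bool)) :
    ev (Inv.sx (Sum.elim q r)) (br b b' l) =
      r b * FreeGroup.lift q (FreeGroup.mk l) * (r b')⁻¹ := by
  rw [br, ev_cons, ev_append, ev_map_enc, ev_singleton, mul_assoc]
  rfl

theorem prefix_br {X : Type} {b b' : Bool} {l : List (X × Bool)}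
    {t : List ((X ⊕ Bool) ⊕ (X ⊕ Bool))} (ht : t <+: br b b' l) :
    t = [] ∨ (∃ l' : List (X × Bool), t = lp b :: l'.map enc) ∨ t = br b b' l := by
  unfold br at ht
  rcases t with - | ⟨c, t⟩
  · exact Or.inl rfl
  · obtain ⟨rfl, h2⟩ := List.cons_prefix_cons.1 ht
    rcases List.prefix_concat_iff.1 h2 with h3 | h3
    · right; right; rw [h3]; rfl
    · right; left
      refine ⟨l.take t.length, ?_⟩
      rw [List.map_take, ← List.prefix_iff_eq_take.1 h3]

namespace Wd
variable {X : Type} (w : Wd X) (K : ℕ) (Us : List (List (X × Bool)))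

/-- the closed word -/
def rx : List ((X ⊕ Bool) ⊕ (X ⊕ Bool)) := br false false (w.pre (w.L * K))

open Classical in
/-- the readable words -/
noncomputable def rV : List (List ((X ⊕ Bool) ⊕ (X ⊕ Bool))) :=
  ((List.range (w.L * K)).filter (fun n => ¬ w.L ∣ n)).map (fun n => br false false (w.pre n)) ++
  (Us.flatMap (fun u => u.inits.map (fun t => br true false t)) ++
    Us.map (fun u => br true true u))

/-- the relator -/
noncomputable def rr : List ((X ⊕ Bool) ⊕ (X ⊕ Bool)) := rel (w.rx K) (w.rV K Us)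

/-- the monoid -/
abbrev Mo : Type := (cg (w.rr K Us)).Quotient

theorem mem_rV {v : List ((X ⊕ Bool) ⊕ (X ⊕ Bool))} : v ∈ w.rV K Us ↔
    (∃ n, n < w.L * K ∧ ¬ w.L ∣ n ∧ v = br false false (w.pre n)) ∨
    (∃ u ∈ Us, ∃ t, t <+: u ∧ v = br true false t) ∨ (∃ u ∈ Us, v = br true true u) := by
  classical
  unfold rV
  rw [List.mem_append, List.mem_append, List.mem_map, List.mem_flatMap, List.mem_map]
  constructor
  · rintro (⟨n, hn, rfl⟩ | ⟨u, hu, hv⟩ | ⟨u, hu, rfl⟩)
    · rw [List.mem_filter, List.mem_range] at hn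
      exact Or.inl ⟨n, hn.1, by simpa using hn.2, rfl⟩
    · obtain ⟨t, ht, rfl⟩ := List.mem_map.1 hv
      exact Or.inr (Or.inl ⟨u, hu, t, (List.mem_inits _ _).1 ht, rfl⟩)
    · exact Or.inr (Or.inr ⟨u, hu, rfl⟩)
  · rintro (⟨n, hn, hd, rfl⟩ | ⟨u, hu, t, ht, rfl⟩ | ⟨u, hu, rfl⟩)
    · left
      refine ⟨n, ?_, rfl⟩
      rw [List.mem_filter, List.mem_range]
      exact ⟨hn, by simpa using hd⟩
    · right; left
      exact ⟨u, hu, List.mem_map.2 ⟨t, (List.mem_inits _ _).2 ht, rfl⟩⟩
    · right; right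
      exact ⟨u, hu, rfl⟩

theorem rd : w.Rd K Us (gi (w.rr K Us)) := by
  have hf := isInvGen (w.rr K Us)
  have hw : ev (gi (w.rr K Us)) (rel (w.rx K) (w.rV K Us)) = 1 := ev_rel (w.rr K Us)
  refine ⟨hf, fun m => (readable_of_rel hf hw m).1, ?_, ?_, ?_⟩
  · intro m n hn hd
    exact (readable_of_rel hf hw m).2 _ ((w.mem_rV K Us).2 (Or.inl ⟨n, hn, hd, rfl⟩))
  · intro m u hu t ht
    exact (readable_of_rel hf hw m).2 _ ((w.mem_rV K Us).2 (Or.inr (Or.inl ⟨u, hu, t, ht, rfl⟩)))
  · intro m u hu
    exact (readable_of_rel hf hw m).2 _ ((w.mem_rV K Us).2 (Or.inr (Or.inr ⟨u, hu, rfl⟩)))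

/-- homomorphisms to groups -/
theorem exists_to {G : Type} [Group G] (q : X → G) (r : Bool → G)
    (hq : W q w.ℓ (w.L * K) = 1) : ∃ φ : w.Mo K Us →* G,
      (∀ b b' l, φ (ev (gi (w.rr K Us)) (br b b' l)) =
        r b * FreeGroup.lift q (FreeGroup.mk l) * (r b')⁻¹) ∧
      (∀ b (l : List (X × Bool)), φ (ev (gi (w.rr K Us)) (lp b :: l.map enc)) =
        r b * FreeGroup.lift q (FreeGroup.mk l)) := by
  obtain ⟨φ, hφ⟩ := Inv.exists_grp (Sum.elim q r) (w.rx K) (w.rV K Us) (by
    rw [rx, ev_br, mk_pre, lift_W, hq]; group)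
  refine ⟨φ, fun b b' l => ?_, fun b l => ?_⟩
  · rw [← ev_br]
    exact hφ _
  · have : ev (Inv.sx (Sum.elim q r)) (lp b :: l.map enc) =
        r b * FreeGroup.lift q (FreeGroup.mk l) := by
      rw [ev_cons, ev_map_enc]; rfl
    rw [← this]
    exact hφ _

/-- left multiplication on one copy -/
def sig (B : Type) [Group B] : B →* Equiv.Perm (Bool × B) where
  toFun g :=
    { toFun := fun z => if z.1 = true then z else (z.1, g * z.2)
      invFun := fun z => if z.1 = true then z else (z.1, g⁻¹ * z.2)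
      left_inv := by
        rintro ⟨i, b⟩
        cases i <;> simp
      right_inv := by
        rintro ⟨i, b⟩
        cases i <;> simp }
  map_one' := by
    ext ⟨i, b⟩ <;> cases i <;> simp
  map_mul' g g' := by
    ext ⟨i, b⟩ <;> cases i <;> simp [mul_assoc]

theorem sig_false {B : Type} [Group B] (g b : B) : sig B g (false, b) = (false, g * b) := rfl
theorem sig_true {B : Type} [Group B] (g b : B) : sig B g (true, b) = (true, b) := rfl

/-- exchange of the copies -/
def swp (B : Type) : Equiv.Perm (Bool × B) where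
  toFun z := (!z.1, z.2)
  invFun z := (!z.1, z.2)
  left_inv := by rintro ⟨i, b⟩; simp
  right_inv := by rintro ⟨i, b⟩; simp

/-- the submonoid generated by the expected units -/
noncomputable def TT : Submonoid (w.Mo K Us) :=
  Submonoid.closure {x | ∃ u ∈ Us, x = ev (gi (w.rr K Us)) (br true true u)}

theorem mem_TT {t : w.Mo K Us} (ht : t ∈ w.TT K Us) : ∃ us : List (List (X × Bool)),
    (∀ u ∈ us, u ∈ Us) ∧ t = (us.map (fun u => ev (gi (w.rr K Us)) (br true true u))).prod := by
  unfold TT at ht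
  induction ht using Submonoid.closure_induction with
  | mem x hx =>
    obtain ⟨u, hu, rfl⟩ := hx
    exact ⟨[u], by simpa using hu, by simp⟩
  | one => exact ⟨[], by simp, by simp⟩
  | mul x y _ _ ihx ihy =>
    obtain ⟨us, h1, h2⟩ := ihx
    obtain ⟨vs, h3, h4⟩ := ihy
    refine ⟨us ++ vs, ?_, ?_⟩
    · intro u hu
      rcases List.mem_append.1 hu with hu | hu
      · exact h1 u hu
      · exact h3 u hu
    · rw [List.map_append, List.prod_append, ← h2, ← h4]

/-- a restricted action -/
theorem exists_act {A : Type} (r : List (A ⊕ A)) (N : Submonoid (cg r).Quotient) :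
    ∃ S : Act A N, (∀ (u : List (A ⊕ A)) (m : N) (m' : (cg r).Quotient), Pt (gi r) u m.1 m' →
      (∀ t, t <+: u → m.1 * ev (gi r) t ∈ N) → ∃ h, S.run u m = some ⟨m', h⟩) ∧
      (∀ (u : List (A ⊕ A)) (m m' : N), S.run u m = some m' → m'.1 = m.1 * ev (gi r) u) := by
  classical
  have hf := isInvGen r
  let S : Act A N :=
    { step := fun x m => if h : (m.1 * gi r x * gi r x.swap = m.1 ∧ m.1 * gi r x ∈ N) then
        some ⟨m.1 * gi r x, h.2⟩ else none
      symm := by
        intro x m m' hm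
        split_ifs at hm with h
        have e : m' = ⟨m.1 * gi r x, h.2⟩ := (Option.some.inj hm).symm
        subst e
        have h1 : m.1 * gi r x * gi r x.swap * gi r x.swap.swap = m.1 * gi r x := by
          rw [Sum.swap_swap, h.1]
        have h2 : m.1 * gi r x * gi r x.swap ∈ N := by rw [h.1]; exact m.2
        rw [dif_pos ⟨h1, h2⟩]
        congr 1
        exact Subtype.ext h.1 }
  have hstep : ∀ x (m : N), S.step x m =
      if h : (m.1 * gi r x * gi r x.swap = m.1 ∧ m.1 * gi r x ∈ N) then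
        some ⟨m.1 * gi r x, h.2⟩ else none := fun _ _ => rfl
  refine ⟨S, ?_, ?_⟩
  · intro u
    induction u with
    | nil =>
      intro m m' h1 _
      have e := h1.eq_nil
      subst e
      exact ⟨m.2, rfl⟩
    | cons c u ih =>
      intro m m' h1 h2
      obtain ⟨h3, h4⟩ := Pt.uncons hf h1
      have h5 : m.1 * gi r c * gi r c.swap = m.1 := by
        have := h3.2
        rw [nu_singleton, ev_singleton] at this
        exact this
      have h6 : m.1 * gi r c ∈ N := by
        have := h2 [c] ⟨u, rfl⟩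
        rw [ev_singleton] at this
        exact this
      obtain ⟨h7, h8⟩ := ih ⟨m.1 * gi r c, h6⟩ m' h4 (by
        intro t ht
        have := h2 (c :: t) (List.cons_prefix_cons.2 ⟨rfl, ht⟩)
        rw [ev_cons, ← mul_assoc] at this
        exact this)
      refine ⟨h7, ?_⟩
      show (S.step c m).bind (S.run u) = _
      rw [hstep, dif_pos ⟨h5, h6⟩]
      exact h8
  · intro u
    induction u with
    | nil =>
      intro m m' h
      have e : m = m' := Option.some.inj h
      rw [← e, ev_nil, mul_one]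
    | cons c u ih =>
      intro m m' h
      have h1 : (S.step c m).bind (S.run u) = some m' := h
      rw [hstep] at h1
      split_ifs at h1 with h2
      · have h3 : S.run u ⟨m.1 * gi r c, h2.2⟩ = some m' := h1
        rw [ih _ _ h3, ev_cons, ← mul_assoc]
      · simp at h1

theorem unit_mem (hR : w.Root) (t t' : w.Mo K Us) (htt : t * t' = 1) (htt' : t' * t = 1) :
    t ∈ w.TT K Us := by
  classical
  have hrd := w.rd K Us
  set f := gi (w.rr K Us) with hfdef
  -- the weight
  obtain ⟨wt, hwt1, hwt2⟩ := w.exists_to K Us (G := Multiplicative ℤ) (fun _ => 1)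
    (fun b => if b = true then Multiplicative.ofAdd 2 else Multiplicative.ofAdd 1) (by
      rw [← lift_W]
      have : FreeGroup.lift (fun _ : X => (1 : Multiplicative ℤ)) = 1 := by
        apply FreeGroup.ext_hom
        intro x
        rw [FreeGroup.lift_apply_of]; rfl
      rw [this]; rfl)
  have hlift1 : ∀ c, FreeGroup.lift (fun _ : X => (1 : Multiplicative ℤ)) c = 1 := by
    intro c
    have : FreeGroup.lift (fun _ : X => (1 : Multiplicative ℤ)) = 1 := by
      apply FreeGroup.ext_hom
      intro x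
      rw [FreeGroup.lift_apply_of]; rfl
    rw [this]; rfl
  -- the permutation action
  have hliftσ : FreeGroup.lift (fun x => sig w.B (w.b x)) =
      (sig w.B).comp (FreeGroup.lift w.b) := by
    apply FreeGroup.ext_hom
    intro x
    show _ = sig w.B (FreeGroup.lift w.b (FreeGroup.of x))
    rw [FreeGroup.lift_apply_of, FreeGroup.lift_apply_of]
  obtain ⟨Δ, hΔ1, hΔ2⟩ := w.exists_to K Us (G := Equiv.Perm (Bool × w.B))
    (fun x => sig w.B (w.b x)) (fun b => if b = true then swp w.B else 1) (by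
      rw [← lift_W, hliftσ]
      show sig w.B (FreeGroup.lift w.b _) = 1
      rw [lift_W, w.W_mul, w.W_b, one_pow, map_one])
  let D : w.Mo K Us → Prop := fun t => ∃ l : List ℕ, (∀ p ∈ l, ¬ w.L ∣ p) ∧
    (∀ b : w.B, Δ t (false, b) = (false, (l.map (W w.b w.ℓ)).prod * b)) ∧
    (l = [] → t ∈ w.TT K Us)
  have hD1 : D 1 := ⟨[], by simp, by intro b; rw [map_one]; simp, fun _ => one_mem _⟩
  have hDmul : ∀ a b, D a → D b → D (a * b) := by
    rintro a b ⟨l, h1, h2, h3⟩ ⟨l', h1', h2', h3'⟩
    refine ⟨l ++ l', ?_, ?_, ?_⟩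
    · intro p hp
      rcases List.mem_append.1 hp with hp | hp
      · exact h1 p hp
      · exact h1' p hp
    · intro c
      rw [map_mul]
      show Δ a (Δ b (false, c)) = _
      rw [h2', h2, List.map_append, List.prod_append, mul_assoc]
    · intro h
      obtain ⟨e1, e2⟩ := List.append_eq_nil_iff.1 h
      exact mul_mem (h3 e1) (h3' e2)
  let N : Submonoid (w.Mo K Us) :=
    { carrier := {t | 1 ≤ (wt t).toAdd ∨ ((wt t).toAdd = 0 ∧ D t)}
      one_mem' := Or.inr ⟨by rw [map_one]; rfl, hD1⟩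
      mul_mem' := by
        rintro a b ha hb
        show 1 ≤ (wt (a * b)).toAdd ∨ ((wt (a * b)).toAdd = 0 ∧ D (a * b))
        rw [map_mul, toAdd_mul]
        rcases ha with ha | ⟨ha, ha'⟩
        · rcases hb with hb | ⟨hb, hb'⟩
          · left; omega
          · left; omega
        · rcases hb with hb | ⟨hb, hb'⟩
          · left; omega
          · right; exact ⟨by omega, hDmul _ _ ha' hb'⟩ }
  have hN : ∀ a, a ∈ N ↔ (1 ≤ (wt a).toAdd ∨ ((wt a).toAdd = 0 ∧ D a)) := fun a => Iff.rfl
  have hmid : ∀ b (l : List (X × Bool)), ev f (lp b :: l.map enc) ∈ N := by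
    intro b l
    rw [hN]
    left
    rw [hwt2, hlift1, mul_one]
    cases b
    · exact le_refl (1 : ℤ)
    · show (1 : ℤ) ≤ 2
      norm_num
  have hx1 : ev f (w.rx K) ∈ N := by
    have := (hrd.r0 1).1
    rw [one_mul] at this
    have e : ev f (w.rx K) = 1 := this
    rw [e]
    exact one_mem _
  have hV : ∀ v ∈ w.rV K Us, ev f v ∈ N := by
    intro v hv
    rcases (w.mem_rV K Us).1 hv with ⟨n, hn, hd, rfl⟩ | ⟨u, hu, t, ht, rfl⟩ | ⟨u, hu, rfl⟩
    · rw [hN]
      right
      refine ⟨?_, [n], by simpa using hd, ?_, by simp⟩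
      · rw [hwt1, hlift1]
        simp
      · intro b
        rw [hΔ1, hliftσ]
        simp only [Bool.false_eq_true, if_false, one_mul, inv_one, mul_one]
        rw [mk_pre]
        show sig w.B (FreeGroup.lift w.b (W FreeGroup.of w.ℓ n)) (false, b) = _
        rw [lift_W, sig_false]
        simp
    · rw [hN]
      left
      rw [hwt1, hlift1]
      show (1 : ℤ) ≤ 2 + 0 + -1
      norm_num
    · rw [hN]
      right
      refine ⟨?_, [], by simp, ?_, fun _ => Submonoid.subset_closure ⟨u, hu, rfl⟩⟩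
      · rw [hwt1, hlift1]
        simp
      · intro b
        rw [hΔ1, hliftσ]
        simp only [if_true]
        show swp w.B (sig w.B (FreeGroup.lift w.b (FreeGroup.mk u)) ((swp w.B).symm (false, b))) = _
        have e : (swp w.B).symm (false, b) = (true, b) := rfl
        rw [e, sig_true]
        simp [swp]
  have hpre : ∀ b b' (l : List (X × Bool)), ev f (br b b' l) ∈ N → ∀ m : N, ∀ t, t <+: br b b' l →
      m.1 * ev f t ∈ N := by
    intro b b' l hbr m t ht
    apply mul_mem m.2
    rcases prefix_br ht with rfl | ⟨l', rfl⟩ | rfl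
    · exact one_mem _
    · exact hmid b l'
    · exact hbr
  obtain ⟨S, hS1, hS2⟩ := exists_act (w.rr K Us) N
  have hrun : ∀ ω, S.run (w.rr K Us) ω = some ω := by
    intro ω
    obtain ⟨h1, h2⟩ := hS1 (w.rx K) ω ω.1 (hrd.r0 ω.1) (hpre _ _ _ hx1 ω)
    show S.run (w.rx K ++ (w.rV K Us).flatMap (fun v => v ++ nu v)) ω = some ω
    rw [Act.run_append, h2]
    show S.run ((w.rV K Us).flatMap (fun v => v ++ nu v)) ω = some ω
    apply S.run_flat
    intro v hv
    have hb : ∃ b b' l, v = br b b' l := by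
      rcases (w.mem_rV K Us).1 hv with ⟨n, hn, hd, rfl⟩ | ⟨u, hu, t, ht, rfl⟩ | ⟨u, hu, rfl⟩
      · exact ⟨_, _, _, rfl⟩
      · exact ⟨_, _, _, rfl⟩
      · exact ⟨_, _, _, rfl⟩
    have hrdv : Pt f v ω.1 (ω.1 * ev f v) := by
      rcases (w.mem_rV K Us).1 hv with ⟨n, hn, hd, rfl⟩ | ⟨u, hu, t, ht, rfl⟩ | ⟨u, hu, rfl⟩
      · exact hrd.r1 _ n hn hd
      · exact hrd.r2 _ u hu t ht
      · exact hrd.r3 _ u hu
    have hvN := hV v hv
    obtain ⟨b, b', l, rfl⟩ := hb
    obtain ⟨h3, h4⟩ := hS1 _ ω _ hrdv (hpre _ _ _ hvN ω)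
    rw [h4]
    rfl
  have hunit : ∀ t t' : w.Mo K Us, t * t' = 1 → t' * t = 1 → t ∈ N := by
    intro t t' h1 h2
    obtain ⟨u, rfl⟩ := Inv.exists_word (w.rr K Us) t
    have h3 := hrd.hf.reg u
    have h4 : ev f u * ev f (nu u) = 1 := by
      calc ev f u * ev f (nu u) = ev f u * ev f (nu u) * (ev f u * t') := by rw [h1, mul_one]
        _ = (ev f u * ev f (nu u) * ev f u) * t' := by simp only [mul_assoc]
        _ = 1 := by rw [h3]; exact h1
    have h5 : cg (w.rr K Us) (FreeMonoid.ofList (u ++ nu u)) (FreeMonoid.ofList []) := by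
      rw [cg_iff, ev_append, ev_nil]
      exact h4
    have h6 := S.run_eq hrun h5 1
    rw [Act.run_append] at h6
    cases h7 : S.run u 1 with
    | none => rw [h7] at h6; simp [Act.run] at h6
    | some ω' =>
      have h8 := hS2 u 1 ω' h7
      have h9 : ω'.1 = ev f u := by
        rw [h8]
        exact one_mul _
      show ev f u ∈ N
      rw [← h9]
      exact ω'.2
  have k1 := hunit t t' htt htt'
  have k2 := hunit t' t htt' htt
  rw [hN] at k1 k2
  have k3 : (wt t).toAdd + (wt t').toAdd = 0 := by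
    rw [← toAdd_mul, ← map_mul, htt, map_one]; rfl
  have k4 : D t := by
    rcases k1 with k1 | k1
    · rcases k2 with k2 | k2 <;> omega
    · exact k1.2
  have k5 : D t' := by
    rcases k2 with k2 | k2
    · rcases k1 with k1 | k1 <;> omega
    · exact k2.2
  obtain ⟨l, a1, a2, a3⟩ := k4
  obtain ⟨l', b1, b2, b3⟩ := k5
  apply a3
  by_contra hl
  apply hR (l ++ l') (by simp [hl])
  · intro p hp
    rcases List.mem_append.1 hp with hp | hp
    · exact a1 p hp
    · exact b1 p hp
  · have c1 : Δ (t * t') (false, 1) = (false, 1) := by rw [htt, map_one]; rfl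
    rw [map_mul] at c1
    have c2 : Δ t (Δ t' (false, 1)) = (false, 1) := c1
    rw [b2, a2] at c2
    have c3 := congrArg Prod.snd c2
    simp only [mul_one] at c3
    rw [List.map_append, List.prod_append]
    exact c3

end Wd
end Pool.H679R3.OR
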