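import Pool.Agent.H679R3.OR.Mon2

set_option autoImplicit false

/-!
# The group of units
-/

namespace Pool.H679R3.OR
open Pool.Agent.Helper707.IAlg Pool.Agent.Helper707.IModel

namespace Wd
variable {X : Type} (w : Wd X) {K : ℕ} {Us : List (List (X × Bool))}

theorem units_equiv (hK : 0 < K) (hR : w.Root) (h0 : [] ∈ Us)
    (hinv : ∀ u ∈ Us, FreeGroup.invRev u ∈ Us) :
    Nonempty (Subgroup.closure {g : w.P K | ∃ u ∈ Us,
      g = FreeGroup.lift (w.p K) (FreeGroup.mk u)} ≃* (w.Mo K Us)ˣ) := by
  have hrd := w.rd K Us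
  obtain ⟨γ, hγ1, -⟩ := w.exists_to K Us (G := w.P K) (w.p K) (fun _ => 1) (w.W_p K)
  have hγu : ∀ u, γ (ev (gi (w.rr K Us)) (br true true u)) =
      FreeGroup.lift (w.p K) (FreeGroup.mk u) := by
    intro u
    rw [hγ1, one_mul, inv_one, mul_one]
  have hγus : ∀ us : List (List (X × Bool)),
      γ ((us.map (fun u => ev (gi (w.rr K Us)) (br true true u))).prod) =
        FreeGroup.lift (w.p K) (FreeGroup.mk us.flatten) := by
    intro us
    induction us with
    | nil =>
      rw [List.map_nil, List.prod_nil, map_one]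
      exact (map_one (FreeGroup.lift (w.p K))).symm
    | cons u us ih =>
      rw [List.map_cons, List.prod_cons, map_mul, ih, hγu, List.flatten_cons, ← FreeGroup.mul_mk,
        map_mul]
  let Φ : (w.Mo K Us)ˣ →* w.P K := γ.comp (Units.coeHom _)
  have hΦ : ∀ a : (w.Mo K Us)ˣ, Φ a = γ a.1 := fun a => rfl
  have hmem : ∀ a : (w.Mo K Us)ˣ, ∃ us : List (List (X × Bool)), (∀ u ∈ us, u ∈ Us) ∧
      a.1 = (us.map (fun u => ev (gi (w.rr K Us)) (br true true u))).prod := fun a =>
    w.mem_TT K Us (w.unit_mem K Us hR a.1 (a⁻¹).1 a.mul_inv a.inv_mul)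
  have hinj : Function.Injective Φ := by
    rw [injective_iff_map_eq_one]
    intro a ha
    obtain ⟨us, h1, h2⟩ := hmem a
    rw [hΦ, h2, hγus] at ha
    have h3 := w.prod_eq hrd hK hR h0 (us := us) (vs := []) h1 (by simp) (by
      rw [ha]
      exact (map_one (FreeGroup.lift (w.p K))).symm)
    apply Units.ext
    rw [h2, h3]
    rfl
  have hrange : Φ.range = Subgroup.closure {g : w.P K | ∃ u ∈ Us,
      g = FreeGroup.lift (w.p K) (FreeGroup.mk u)} := by
    apply le_antisymm
    · rintro _ ⟨a, rfl⟩
      obtain ⟨us, h1, h2⟩ := hmem a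
      rw [hΦ, h2, hγus]
      clear h2
      induction us with
      | nil =>
        have : FreeGroup.lift (w.p K) (FreeGroup.mk ([] : List (List (X × Bool))).flatten) = 1 :=
          map_one (FreeGroup.lift (w.p K))
        rw [this]
        exact one_mem _
      | cons u us ih =>
        rw [List.flatten_cons, ← FreeGroup.mul_mk, map_mul]
        exact mul_mem (Subgroup.subset_closure ⟨u, h1 u List.mem_cons_self, rfl⟩)
          (ih (fun v hv => h1 v (List.mem_cons_of_mem _ hv)))
    · rw [Subgroup.closure_le]
      rintro _ ⟨u, hu, rfl⟩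
      have hmul : ∀ v, FreeGroup.mk ([v, FreeGroup.invRev v] : List (List (X × Bool))).flatten =
          1 := by
        intro v
        rw [List.flatten_cons, List.flatten_cons, List.flatten_nil, List.append_nil,
          ← FreeGroup.mul_mk, ← FreeGroup.inv_mk, mul_inv_cancel]
      have h1 := w.prod_eq hrd hK hR h0 (us := [u, FreeGroup.invRev u]) (vs := []) (by
        intro v hv
        simp only [List.mem_cons, List.not_mem_nil, or_false] at hv
        rcases hv with rfl | rfl
        · exact hu
        · exact hinv _ hu) (by simp) (by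
        rw [hmul, map_one]
        exact (map_one (FreeGroup.lift (w.p K))).symm)
      have h2 := w.prod_eq hrd hK hR h0 (us := [FreeGroup.invRev u, u]) (vs := []) (by
        intro v hv
        simp only [List.mem_cons, List.not_mem_nil, or_false] at hv
        rcases hv with rfl | rfl
        · exact hinv _ hu
        · exact hu) (by simp) (by
        have := hmul (FreeGroup.invRev u)
        rw [FreeGroup.invRev_invRev] at this
        rw [this, map_one]
        exact (map_one (FreeGroup.lift (w.p K))).symm)
      simp only [List.map_cons, List.map_nil, List.prod_cons, List.prod_nil, mul_one] at h1 h2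
      exact ⟨⟨_, _, h1, h2⟩, hγu u⟩
  have e1 := MonoidHom.ofInjective hinj
  rw [hrange] at e1
  exact ⟨e1.symm⟩

end Wd

/-- the conclusion -/
def Concl (G : Type) [Group G] : Prop :=
      ∃ (m : ℕ) (w : List (Fin m ⊕ Fin m)) (M : Type) (_ : Monoid M)
        (ι : Fin m ⊕ Fin m → M),
        (∀ x : M, ∃! y : M, x * y * x = x ∧ y * x * y = y) ∧
        (∀ b : Fin m, ι (Sum.inl b) * ι (Sum.inr b) * ι (Sum.inl b) = ι (Sum.inl b) ∧
          ι (Sum.inr b) * ι (Sum.inl b) * ι (Sum.inr b) = ι (Sum.inr b)) ∧
        (w.map ι).prod = 1 ∧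
        Submonoid.closure (Set.range ι) = ⊤ ∧
        (∀ (N : Type) [Monoid N],
          (∀ x : N, ∃! y : N, x * y * x = x ∧ y * x * y = y) →
          ∀ f : Fin m ⊕ Fin m → N,
            (∀ b : Fin m, f (Sum.inl b) * f (Sum.inr b) * f (Sum.inl b) = f (Sum.inl b) ∧
              f (Sum.inr b) * f (Sum.inl b) * f (Sum.inr b) = f (Sum.inr b)) →
            (w.map f).prod = 1 →
            ∃ φ : M →* N, ∀ c, φ (ι c) = f c) ∧
        Nonempty (G ≃* Mˣ)

theorem Concl.congr {G G' : Type} [Group G] [Group G'] (e : G' ≃* G) (h : Concl G) :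
    Concl G' := by
  obtain ⟨m, w, M, i, ι, h1, h2, h3, h4, h5, ⟨h6⟩⟩ := h
  exact ⟨m, w, M, i, ι, h1, h2, h3, h4, h5, ⟨e.trans h6⟩⟩

theorem concl_of {A : Type} [Finite A] (w : List (A ⊕ A)) {G : Type} [Group G]
    (e : G ≃* (cg w).Quotientˣ) : Concl G := by
  classical
  obtain ⟨m, ⟨a⟩⟩ := Finite.exists_equiv_fin A
  have hf := isInvGen w
  have hgen : ∀ b : A, gi w (Sum.inl b) * gi w (Sum.inr b) * gi w (Sum.inl b) = gi w (Sum.inl b) ∧
      gi w (Sum.inr b) * gi w (Sum.inl b) * gi w (Sum.inr b) = gi w (Sum.inr b) := by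
    intro b
    constructor
    · have := hf.reg [Sum.inl b]
      rw [nu_singleton, ev_singleton, ev_singleton] at this
      exact this
    · have := hf.reg [Sum.inr b]
      rw [nu_singleton, ev_singleton, ev_singleton] at this
      exact this
  refine ⟨m, w.map (Sum.map a a), (cg w).Quotient, inferInstance,
    gi w ∘ Sum.map a.symm a.symm, Inv.existsUnique_inv hf (Inv.exists_word w), ?_, ?_, ?_, ?_, ⟨e⟩⟩
  · intro b
    exact hgen (a.symm b)
  · rw [List.map_map]
    have : (gi w ∘ Sum.map a.symm a.symm) ∘ Sum.map a a = gi w := by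
      funext c
      cases c <;> simp
    rw [this]
    exact ev_rel w
  · rw [eq_top_iff]
    rintro x -
    obtain ⟨u, rfl⟩ := Inv.exists_word w x
    induction u with
    | nil => exact one_mem _
    | cons c u ih =>
      rw [ev_cons]
      refine mul_mem (Submonoid.subset_closure ⟨Sum.map a a c, ?_⟩) ih
      cases c <;> simp
  · intro N _ hN f hf' hw
    obtain ⟨φ, hφ⟩ := Inv.exists_hom (f ∘ Sum.map a a) w hN (fun b => hf' (a b)) (by
      rw [← List.map_map]; exact hw)
    refine ⟨φ, fun c => ?_⟩
    show φ (gi w (Sum.map a.symm a.symm c)) = f c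
    rw [hφ]
    cases c <;> simp

/-- subgroups of presented groups transported along equivalences -/
theorem concl_map {G G' : Type} [Group G] [Group G'] (e : G ≃* G') (H : Subgroup G)
    (hH : H.FG) (h : ∀ H' : Subgroup G', H'.FG → Concl H') : Concl H := by
  classical
  have hfg : (H.map e.toMonoidHom).FG := by
    obtain ⟨S, hS⟩ := hH
    refine ⟨S.image e, ?_⟩
    rw [Finset.coe_image, ← hS, MonoidHom.map_closure]
    rfl
  have h1 := h (H.map e.toMonoidHom) hfg
  exact h1.congr (e.subgroupMap H)

theorem ncl_le {G : Type} [Group G] {a b g : G} (h : a = g * b * g⁻¹) :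
    Subgroup.normalClosure ({a} : Set G) ≤ Subgroup.normalClosure ({b} : Set G) := by
  apply Subgroup.normalClosure_le_normal
  intro x hx
  have hx' : x = g * b * g⁻¹ := (Set.mem_singleton_iff.1 hx).trans h
  have hb : b ∈ Subgroup.normalClosure ({b} : Set G) :=
    Subgroup.subset_normalClosure (Set.mem_singleton b)
  have hn : (Subgroup.normalClosure ({b} : Set G)).Normal := Subgroup.normalClosure_normal
  show x ∈ Subgroup.normalClosure ({b} : Set G)
  rw [hx']
  exact hn.conj_mem b hb g

theorem concl_ne {X : Type} [Finite X] (r : FreeGroup X) (hr : r ≠ 1)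
    (H : Subgroup (PresentedGroup ({r} : Set (FreeGroup X)))) (hH : H.FG) : Concl H := by
  classical
  obtain ⟨w, K, g, hK, hR, hrw⟩ := exists_wd_root r hr
  have hnc : Subgroup.normalClosure ({r} : Set (FreeGroup X)) =
      Subgroup.normalClosure ({W FreeGroup.of w.ℓ (w.L * K)} : Set (FreeGroup X)) := by
    apply le_antisymm
    · exact ncl_le hrw
    · refine ncl_le (g := g⁻¹) ?_
      rw [hrw]; group
  have e : PresentedGroup ({r} : Set (FreeGroup X)) ≃* w.P K :=
    QuotientGroup.quotientMulEquivOfEq hnc
  refine concl_map e H hH ?_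
  intro H' hH'
  obtain ⟨S, hS⟩ := hH'
  -- words for the generators
  have hword : ∀ s : w.P K, ∃ u, FreeGroup.lift (w.p K) (FreeGroup.mk u) = s := by
    intro s
    obtain ⟨c, rfl⟩ := QuotientGroup.mk_surjective s
    obtain ⟨u, rfl⟩ : ∃ l, FreeGroup.mk l = c := Quot.exists_rep c
    exact ⟨u, (w.mk_eq_lift K _).symm⟩
  choose wd hwd using hword
  let U0 : List (List (X × Bool)) := S.toList.map wd
  let Us : List (List (X × Bool)) := [] :: (U0 ++ U0.map FreeGroup.invRev)
  have hUs : ∀ u, u ∈ Us ↔ u = [] ∨ u ∈ U0 ∨ ∃ v ∈ U0, FreeGroup.invRev v = u := by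
    intro u
    simp [Us]
  obtain ⟨e2⟩ := w.units_equiv (K := K) (Us := Us) hK hR ((hUs _).2 (Or.inl rfl)) (by
    intro u hu
    rw [hUs] at hu ⊢
    rcases hu with rfl | hu | ⟨v, hv, rfl⟩
    · left; rfl
    · right; right; exact ⟨u, hu, rfl⟩
    · right; left
      rw [FreeGroup.invRev_invRev]
      exact hv)
  have hcl : Subgroup.closure {g : w.P K | ∃ u ∈ Us,
      g = FreeGroup.lift (w.p K) (FreeGroup.mk u)} = H' := by
    rw [← hS]
    apply le_antisymm
    · rw [Subgroup.closure_le]
      rintro _ ⟨u, hu, rfl⟩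
      have hU0 : ∀ u ∈ U0, FreeGroup.lift (w.p K) (FreeGroup.mk u) ∈
          Subgroup.closure (S : Set (w.P K)) := by
        intro u hu
        obtain ⟨s, hs, rfl⟩ := List.mem_map.1 hu
        rw [hwd]
        exact Subgroup.subset_closure (Finset.mem_toList.1 hs)
      rcases (hUs u).1 hu with rfl | hu | ⟨v, hv, rfl⟩
      · have : FreeGroup.lift (w.p K) (FreeGroup.mk ([] : List (X × Bool))) = 1 :=
          map_one (FreeGroup.lift (w.p K))
        rw [this]
        exact one_mem _
      · exact hU0 u hu
      · rw [← FreeGroup.inv_mk, map_inv]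
        exact inv_mem (hU0 v hv)
    · rw [Subgroup.closure_le]
      intro s hs
      apply Subgroup.subset_closure
      refine ⟨wd s, (hUs _).2 (Or.inr (Or.inl (List.mem_map.2 ⟨s, Finset.mem_toList.2 hs, rfl⟩))), ?_⟩
      rw [hwd]
  rw [hcl] at e2
  exact concl_of _ e2

theorem concl_all (n : ℕ) (r : FreeGroup (Fin n))
    (H : Subgroup (PresentedGroup ({r} : Set (FreeGroup (Fin n))))) (hH : H.FG) : Concl H := by
  classical
  by_cases hr : r = 1
  · -- add a generator which is killed
    subst hr
    have h1 : ∀ r ∈ ({1} : Set (FreeGroup (Fin n))), FreeGroup.lift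
        (fun i => (PresentedGroup.of (some i) :
          PresentedGroup ({FreeGroup.of none} : Set (FreeGroup (Option (Fin n)))))) r = 1 := by
      intro r hr
      rw [Set.mem_singleton_iff] at hr
      rw [hr, map_one]
    have h2 : ∀ r ∈ ({FreeGroup.of none} : Set (FreeGroup (Option (Fin n)))), FreeGroup.lift
        (fun o : Option (Fin n) => (match o with
          | some i => PresentedGroup.of i
          | none => 1 : PresentedGroup ({1} : Set (FreeGroup (Fin n))))) r = 1 := by
      intro r hr
      rw [Set.mem_singleton_iff] at hr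
      rw [hr, FreeGroup.lift_apply_of]
    let e : PresentedGroup ({1} : Set (FreeGroup (Fin n))) ≃*
        PresentedGroup ({FreeGroup.of none} : Set (FreeGroup (Option (Fin n)))) :=
      MonoidHom.toMulEquiv (PresentedGroup.toGroup h1) (PresentedGroup.toGroup h2) (by
        apply PresentedGroup.ext
        intro i
        show PresentedGroup.toGroup h2 (PresentedGroup.toGroup h1 (PresentedGroup.of i)) = _
        rw [PresentedGroup.toGroup.of, PresentedGroup.toGroup.of]
        rfl) (by
        apply PresentedGroup.ext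
        intro o
        show PresentedGroup.toGroup h1 (PresentedGroup.toGroup h2 (PresentedGroup.of o)) = _
        rw [PresentedGroup.toGroup.of]
        cases o with
        | none =>
          rw [map_one]
          have : (PresentedGroup.of none : PresentedGroup
              ({FreeGroup.of none} : Set (FreeGroup (Option (Fin n))))) = 1 :=
            PresentedGroup.one_of_mem rfl
          exact this.symm
        | some i =>
          rw [PresentedGroup.toGroup.of]
          rfl)
    exact concl_map e H hH (fun H' hH' => concl_ne _ (FreeGroup.of_ne_one _) H' hH')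
  · exact concl_ne r hr H hH

end Pool.H679R3.OR
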