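import Pool.Agent.H679R3.OR.Step2

set_option autoImplicit false

/-!
# Rotated words and the root property
-/

namespace Pool.H679R3.OR
namespace Wd

variable {X : Type} (w : Wd X)

/-- no nontrivial product of proper prefixes is trivial -/
def Root : Prop := ∀ l : List ℕ, l ≠ [] → (∀ p ∈ l, ¬ w.L ∣ p) →
  (l.map (W w.b w.ℓ)).prod ≠ 1

/-- rotation -/
def rot (i0 : ℕ) : Wd X where
  ℓ n := w.ℓ (i0 + n)
  L := w.L
  pos := w.pos
  per n := by rw [← add_assoc, w.per]
  red n := by
    rw [← add_assoc]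
    exact w.red (i0 + n)
  prim d hd := by
    apply w.prim d
    intro n
    -- choose a multiple of L above i0
    have h1 : i0 ≤ w.L * i0 := Nat.le_mul_of_pos_left _ w.pos
    have h2 := hd (n + (w.L * i0 - i0))
    have e1 : i0 + (n + (w.L * i0 - i0) + d) = (n + d) + w.L * i0 := by omega
    have e2 : i0 + (n + (w.L * i0 - i0)) = n + w.L * i0 := by omega
    rw [e1, e2, w.per_mul, w.per_mul] at h2
    exact h2

theorem W_rot {G : Type*} [Group G] (f : X → G) (i0 n : ℕ) :
    W f (w.rot i0).ℓ n = (W f w.ℓ i0)⁻¹ * W f w.ℓ (i0 + n) := by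
  rw [W_add]
  show _ = (W f w.ℓ i0)⁻¹ * (W f w.ℓ i0 * W f (w.rot i0).ℓ n)
  group

theorem W_rot_mul {G : Type*} [Group G] (f : X → G) (i0 K : ℕ) :
    W f (w.rot i0).ℓ (w.L * K) = (W f w.ℓ i0)⁻¹ * W f w.ℓ (w.L * K) * W f w.ℓ i0 := by
  rw [W_rot, add_comm, w.W_mul_add, w.W_mul, mul_assoc]

theorem exists_rot_root : ∃ i0, (w.rot i0).Root := by
  obtain ⟨O, _, ρ, hρ1, hρ2, hρ3⟩ := w.main.2
  obtain ⟨i0, -, hi0⟩ := Finset.exists_min_image (Finset.range w.L) ρ
    ⟨0, Finset.mem_range.2 w.pos⟩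
  have hρmul : ∀ k n, ρ (n + w.L * k) = ρ n := by
    intro k n
    induction k with
    | zero => simp
    | succ k ih => rw [Nat.mul_succ, ← add_assoc, hρ1, ih]
  have hmod : ∀ n, ρ (n % w.L) = ρ n := by
    intro n
    conv_rhs => rw [← Nat.mod_add_div n w.L]
    rw [hρmul]
  have hmin : ∀ n, ρ i0 ≤ ρ n := by
    intro n
    rw [← hmod n]
    exact hi0 _ (Finset.mem_range.2 (Nat.mod_lt _ w.pos))
  refine ⟨i0, ?_⟩
  intro l hl hL hprod
  have h1 : W w.b (w.rot i0).ℓ (w.rot i0).L = 1 := by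
    have := w.W_rot_mul w.b i0 1
    rw [mul_one, w.W_b] at this
    rw [show (w.rot i0).L = w.L from rfl, this]
    group
  obtain ⟨φ, hφ⟩ := (w.rot i0).exists_lift w.b h1
  have hφW : ∀ n, φ (W (w.rot i0).b (w.rot i0).ℓ n) =
      (W w.b w.ℓ i0)⁻¹ * W w.b w.ℓ (i0 + n) := by
    intro n
    rw [map_W, ← W_rot]
    congr 1
    funext x
    exact hφ x
  apply hρ3 (l.map (fun p => (i0 + p, i0)))
  · simpa using hl
  · intro q hq
    obtain ⟨p, hp, rfl⟩ := List.mem_map.1 hq
    simp only
    refine lt_of_le_of_ne (hmin _) ?_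
    intro he
    apply hL p hp
    have h2 := hρ2 _ _ he
    have h3 : w.L ∣ (i0 + p) - i0 := (Nat.modEq_iff_dvd' (by omega)).1 h2
    have h4 : i0 + p - i0 = p := by omega
    rw [h4] at h3
    exact h3
  · have h2 := congrArg φ hprod
    rw [map_list_prod, map_one, List.map_map] at h2
    have h3 : ∀ l : List ℕ, (List.map (fun q : ℕ × ℕ => W w.b w.ℓ q.1 * (W w.b w.ℓ q.2)⁻¹)
        (l.map (fun p => (i0 + p, i0)))).prod =
        W w.b w.ℓ i0 * (l.map (φ ∘ W (w.rot i0).b (w.rot i0).ℓ)).prod * (W w.b w.ℓ i0)⁻¹ := by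
      intro l
      induction l with
      | nil => simp
      | cons p l ih =>
        rw [List.map_cons, List.map_cons, List.prod_cons, ih, List.map_cons, List.prod_cons]
        show W w.b w.ℓ (i0 + p) * (W w.b w.ℓ i0)⁻¹ * _ = W w.b w.ℓ i0 *
          (φ (W (w.rot i0).b (w.rot i0).ℓ p) * _) * _
        rw [hφW]
        group
    rw [h3, h2]
    group

end Wd

/-- Every nontrivial element of a free group is conjugate to a power of a periodic word. -/
theorem exists_wd {X : Type} (r : FreeGroup X) (hr : r ≠ 1) :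
    ∃ (w : Wd X) (K : ℕ) (g : FreeGroup X), 0 < K ∧
      r = g * W FreeGroup.of w.ℓ (w.L * K) * g⁻¹ := by
  classical
  obtain ⟨l, g, hl, hcyc, hlg⟩ : ∃ (l : List (X × Bool)) (g : FreeGroup X), l ≠ [] ∧
      FreeGroup.IsCyclicallyReduced l ∧ r = g * FreeGroup.mk l * g⁻¹ := by
    refine ⟨FreeGroup.reduceCyclically r.toWord,
      FreeGroup.mk (FreeGroup.reduceCyclically.conjugator r.toWord), ?_,
      FreeGroup.reduceCyclically.isCyclicallyReduced FreeGroup.isReduced_toWord, ?_⟩
    · intro h0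
      apply hr
      have h1 := FreeGroup.reduceCyclically.conj_conjugator_reduceCyclically r.toWord
      rw [h0, List.append_nil] at h1
      have h2 := congrArg FreeGroup.mk h1
      rw [FreeGroup.mk_toWord, ← FreeGroup.mul_mk, ← FreeGroup.inv_mk, mul_inv_cancel] at h2
      exact h2.symm
    · have h1 := FreeGroup.reduceCyclically.conj_conjugator_reduceCyclically r.toWord
      have h2 := congrArg FreeGroup.mk h1
      rw [FreeGroup.mk_toWord, ← FreeGroup.mul_mk, ← FreeGroup.mul_mk, ← FreeGroup.inv_mk] at h2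
      exact h2.symm
  have hN : 0 < l.length := List.length_pos_iff.2 hl
  set N := l.length with hNd
  let ℓ : ℕ → X × Bool := fun n => l.get ⟨n % N, Nat.mod_lt _ hN⟩
  have hℓ : ∀ n, ℓ n = l.get ⟨n % N, Nat.mod_lt _ hN⟩ := fun n => rfl
  have hperN : ∀ n, ℓ (n + N) = ℓ n := by
    intro n
    rw [hℓ, hℓ]
    congr 2
    exact Nat.add_mod_right n N
  have hred : ∀ n, ℓ (n + 1) ≠ inv (ℓ n) := by
    intro n he
    have hir := hcyc.1
    by_cases hc : n % N + 1 < N
    · have e1 : (n + 1) % N = n % N + 1 := by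
        rw [Nat.add_mod, Nat.mod_eq_of_lt (show n % N + 1 % N < N from ?_)]
        · rw [Nat.mod_eq_of_lt (show 1 < N by omega)]
        · rw [Nat.mod_eq_of_lt (show 1 < N by omega)]; exact hc
      have h2 : (l.get ⟨n % N, Nat.mod_lt _ hN⟩).1 = (l.get ⟨n % N + 1, hc⟩).1 →
          (l.get ⟨n % N, Nat.mod_lt _ hN⟩).2 = (l.get ⟨n % N + 1, hc⟩).2 :=
        List.isChain_iff_getElem.1 hir (n % N) hc
      have e3 : ℓ (n + 1) = l.get ⟨n % N + 1, hc⟩ := by
        rw [hℓ]; congr 2
      rw [hℓ n] at he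
      rw [e3] at he
      have h3 := congrArg Prod.fst he
      have h4 := congrArg Prod.snd he
      have h5 := h2 h3.symm
      simp only [inv] at h4
      rw [← h5] at h4
      cases (l.get ⟨n % N, Nat.mod_lt _ hN⟩).2 <;> simp at h4
    · have e0 : n % N = N - 1 := by
        have := Nat.mod_lt n hN
        omega
      have e1 : (n + 1) % N = 0 := by
        have : n + 1 = N * (n / N + 1) := by
          have := Nat.div_add_mod n N
          rw [Nat.mul_add, mul_one]; omega
        rw [this]; simp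
      have h2 := hcyc.2 (l.get ⟨N - 1, by omega⟩) (by
        rw [List.getLast?_eq_getElem?]
        simp [← hNd, List.getElem?_eq_getElem (show N - 1 < l.length by omega)]) (l.get ⟨0, hN⟩) (by
        rw [List.head?_eq_getElem?]
        simp [List.getElem?_eq_getElem (show 0 < l.length by omega)])
      have e3 : ℓ (n + 1) = l.get ⟨0, hN⟩ := by
        rw [hℓ]; congr 2
      have e4 : ℓ n = l.get ⟨N - 1, by omega⟩ := by
        rw [hℓ]; congr 2
      rw [e3, e4] at he
      have h3 := congrArg Prod.fst he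
      have h4 := congrArg Prod.snd he
      have h5 := h2 h3.symm
      simp only [inv] at h4
      rw [h5] at h4
      cases (l.get ⟨0, hN⟩).2 <;> simp at h4
  -- the minimal period
  have hex : ∃ d, 0 < d ∧ ∀ n, ℓ (n + d) = ℓ n := ⟨N, hN, hperN⟩
  set L := Nat.find hex with hL
  obtain ⟨hLpos, hLper⟩ := Nat.find_spec hex
  rw [← hL] at hLpos hLper
  have hLk : ∀ k n, ℓ (n + L * k) = ℓ n := by
    intro k n
    induction k with
    | zero => simp
    | succ k ih => rw [Nat.mul_succ, ← add_assoc, hLper, ih]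
  have hprim : ∀ d, (∀ n, ℓ (n + d) = ℓ n) → L ∣ d := by
    intro d hd
    by_contra hnd
    have h1 : 0 < d % L := Nat.pos_of_ne_zero (fun h0 => hnd (Nat.dvd_of_mod_eq_zero h0))
    have h2 : ∀ n, ℓ (n + d % L) = ℓ n := by
      intro n
      rw [← hLk (d / L) (n + d % L), add_assoc, Nat.mod_add_div, hd]
    exact Nat.find_min hex (Nat.mod_lt d hLpos) ⟨h1, h2⟩
  obtain ⟨K, hK⟩ := hprim N hperN
  refine ⟨⟨ℓ, L, hLpos, hLper, hred, hprim⟩, K, g, ?_, ?_⟩
  · rcases Nat.eq_zero_or_pos K with h0 | h0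
    · rw [h0] at hK; omega
    · exact h0
  · show r = g * W FreeGroup.of ℓ (L * K) * g⁻¹
    rw [← hK, hlg]
    congr 2
    have key : ∀ k, k ≤ N → W FreeGroup.of ℓ k = FreeGroup.mk (l.take k) := by
      intro k
      induction k with
      | zero => intro _; simp [W]; rfl
      | succ k ih =>
        intro hk
        rw [W_succ, ih (by omega), List.take_succ_eq_append_getElem (by omega), ← FreeGroup.mul_mk]
        congr 1
        have : ℓ k = l[k] := by
          rw [hℓ]
          simp [Nat.mod_eq_of_lt (show k < N by omega)]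
        rw [this]
        unfold sg
        cases h6 : (l[k]).2 with
        | true =>
          rw [if_pos rfl]
          show FreeGroup.mk [((l[k]).1, true)] = _
          rw [← h6]
        | false =>
          rw [if_neg (by simp)]
          show (FreeGroup.mk [((l[k]).1, true)])⁻¹ = _
          rw [FreeGroup.inv_mk]
          simp only [FreeGroup.invRev, List.map_cons, List.map_nil, List.reverse_cons,
            List.reverse_nil, List.nil_append, Bool.not_true]
          rw [← h6]
    rw [key N le_rfl, List.take_length]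

theorem exists_wd_root {X : Type} (r : FreeGroup X) (hr : r ≠ 1) :
    ∃ (w : Wd X) (K : ℕ) (g : FreeGroup X), 0 < K ∧ w.Root ∧
      r = g * W FreeGroup.of w.ℓ (w.L * K) * g⁻¹ := by
  obtain ⟨w, K, g, hK, hr⟩ := exists_wd r hr
  obtain ⟨i0, hi0⟩ := w.exists_rot_root
  refine ⟨w.rot i0, K, g * W FreeGroup.of w.ℓ i0, hK, hi0, ?_⟩
  rw [show (w.rot i0).L = w.L from rfl, w.W_rot_mul, hr]
  group

end Pool.H679R3.OR
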