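import Pool.Agent.H679R3.OR.Basic

set_option autoImplicit false

/-!
# A separating height function
-/

namespace Pool.H679R3.OR
namespace Wd

variable {X : Type} (w : Wd X)

/-- sign -/
def eps (i : ℕ) : ℤ := if (w.ℓ i).2 then 1 else -1

/-- height of a position -/
def ht (φ : X → ℤ) (n : ℕ) : ℤ := ∑ i ∈ Finset.range n, w.eps i * φ (w.ℓ i).1

/-- height of an edge: the height of the origin of the positively oriented edge. -/
def kt (φ : X → ℤ) (i : ℕ) : ℤ := if (w.ℓ i).2 then w.ht φ i else w.ht φ (i + 1)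

/-- the letters that occur -/
def S : Type := {x : X // ∃ n, (w.ℓ n).1 = x}

/-- the `n`-th letter -/
def c (n : ℕ) : w.S := ⟨(w.ℓ n).1, n, rfl⟩

theorem c_per (n : ℕ) : w.c (n + w.L) = w.c n := by
  unfold c; apply Subtype.ext; show (w.ℓ (n + w.L)).1 = (w.ℓ n).1; rw [w.per]

theorem c_mod (n : ℕ) : w.c (n % w.L) = w.c n := by
  unfold c; apply Subtype.ext; show (w.ℓ (n % w.L)).1 = (w.ℓ n).1; rw [w.per_mod]

instance : Finite w.S := by
  have : Function.Surjective (fun i : Fin w.L => w.c i) := by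
    rintro ⟨x, n, rfl⟩
    exact ⟨⟨n % w.L, Nat.mod_lt _ w.pos⟩, w.c_mod n⟩
  exact Finite.of_surjective _ this

noncomputable instance : Fintype w.S := Fintype.ofFinite _

/-- rational height as a functional -/
noncomputable def H (n : ℕ) : (w.S → ℚ) →ₗ[ℚ] ℚ :=
  ∑ i ∈ Finset.range n, (w.eps i : ℚ) • LinearMap.proj (w.c i)

theorem H_apply (n : ℕ) (φ : w.S → ℚ) :
    w.H n φ = ∑ i ∈ Finset.range n, (w.eps i : ℚ) * φ (w.c i) := by
  simp [H]

theorem H_succ (n : ℕ) (φ : w.S → ℚ) : w.H (n + 1) φ = w.H n φ + (w.eps n : ℚ) * φ (w.c n) := by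
  rw [H_apply, H_apply, Finset.sum_range_succ]

theorem eps_per (n : ℕ) : w.eps (n + w.L) = w.eps n := by unfold eps; rw [w.per]

theorem H_per (n : ℕ) (φ : w.S → ℚ) : w.H (n + w.L) φ = w.H n φ + w.H w.L φ := by
  induction n with
  | zero => simp [H_apply]
  | succ n ih =>
    have e : n + 1 + w.L = (n + w.L) + 1 := by omega
    rw [e, H_succ, H_succ, ih, eps_per, c_per]
    ring

/-- functions vanishing on the word -/
noncomputable def Ph : Submodule ℚ (w.S → ℚ) := LinearMap.ker (w.H w.L)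

/-- position vectors -/
noncomputable def v (n : ℕ) : w.Ph →ₗ[ℚ] ℚ := (w.H n).domRestrict w.Ph

theorem v_apply (n : ℕ) (φ : w.Ph) : w.v n φ = w.H n φ.1 := rfl

theorem v_per (n : ℕ) : w.v (n + w.L) = w.v n := by
  ext φ
  rw [v_apply, v_apply, H_per]
  have : w.H w.L φ.1 = 0 := φ.2
  rw [this, add_zero]

theorem v_zero : w.v 0 = 0 := by
  ext φ; rw [v_apply, H_apply]; simp

theorem v_mod (n : ℕ) : w.v (n % w.L) = w.v n := by
  have h : ∀ k m, w.v (m + w.L * k) = w.v m := by
    intro k m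
    induction k with
    | zero => simp
    | succ k ih => rw [Nat.mul_succ, ← add_assoc, v_per, ih]
  conv_rhs => rw [← Nat.mod_add_div n w.L]
  rw [h]

/-- the set of vertices -/
def Vt : Set (w.Ph →ₗ[ℚ] ℚ) := Set.range w.v

instance : Finite w.Vt := by
  have : Function.Surjective (fun i : Fin w.L => (⟨w.v i, i, rfl⟩ : w.Vt)) := by
    rintro ⟨x, n, rfl⟩
    exact ⟨⟨n % w.L, Nat.mod_lt _ w.pos⟩, Subtype.ext (w.v_mod n)⟩
  exact Finite.of_surjective _ this

theorem card_S_le : Nat.card w.S ≤ Nat.card w.Vt := by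
  classical
  haveI : Fintype w.Vt := Fintype.ofFinite _
  -- the vertices other than 0
  let V0 := {x : w.Vt // x.1 ≠ 0}
  have h0 : (⟨0, 0, w.v_zero⟩ : w.Vt).1 = 0 := rfl
  have hcard : Fintype.card V0 + 1 = Fintype.card w.Vt := by
    have h1 : Fintype.card {x : w.Vt // x.1 = 0} = 1 := by
      rw [Fintype.card_eq_one_iff]
      refine ⟨⟨⟨0, 0, w.v_zero⟩, rfl⟩, ?_⟩
      rintro ⟨⟨x, hx⟩, hx0⟩
      apply Subtype.ext; apply Subtype.ext
      exact hx0
    have h2 := Fintype.card_subtype_compl (fun x : w.Vt => x.1 = 0)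
    have h3 : 0 < Fintype.card w.Vt := Fintype.card_pos_iff.2 ⟨⟨0, 0, w.v_zero⟩⟩
    have h4 : Fintype.card V0 = Fintype.card {x : w.Vt // ¬ x.1 = 0} := rfl
    rw [h4, h2, h1]; omega
  -- injective map
  let f : w.Ph →ₗ[ℚ] (V0 → ℚ) := LinearMap.pi (fun x => x.1.1)
  have hf : Function.Injective f := by
    rw [← LinearMap.ker_eq_bot, LinearMap.ker_eq_bot']
    intro φ hφ
    have h1 : ∀ n, w.v n φ = 0 := by
      intro n
      by_cases h : w.v n = 0
      · rw [h]; rfl
      · exact congrFun hφ ⟨⟨w.v n, n, rfl⟩, h⟩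
    apply Subtype.ext
    funext ⟨x, n, hn⟩
    have h2 := w.H_succ n φ.1
    rw [← v_apply, ← v_apply, h1, h1, zero_add] at h2
    have h3 : w.c n = ⟨x, n, hn⟩ := Subtype.ext hn
    rw [h3] at h2
    have h4 : (w.eps n : ℚ) ≠ 0 := by unfold eps; split_ifs <;> norm_num
    rcases mul_eq_zero.1 h2.symm with h5 | h5
    · exact absurd h5 h4
    · exact h5
  have h1 : Module.finrank ℚ w.Ph ≤ Fintype.card V0 := by
    have := LinearMap.finrank_le_finrank_of_injective hf
    rwa [Module.finrank_fintype_fun_eq_card] at this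
  have h2 := LinearMap.finrank_range_add_finrank_ker (w.H w.L)
  have h3 : Module.finrank ℚ (LinearMap.range (w.H w.L)) ≤ 1 := by
    have := Submodule.finrank_le (LinearMap.range (w.H w.L))
    rwa [Module.finrank_self] at this
  rw [Module.finrank_fintype_fun_eq_card] at h2
  have h4 : Module.finrank ℚ (LinearMap.ker (w.H w.L)) ≤ Fintype.card V0 := h1
  rw [Nat.card_eq_fintype_card, Nat.card_eq_fintype_card, ← hcard]
  omega

end Wd
end Pool.H679R3.OR
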