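import Pool.Agent.H679R3.OR.Sep

set_option autoImplicit false

/-!
# A separating height function, second part
-/

namespace Pool.H679R3.OR
namespace Wd

variable {X : Type} (w : Wd X)

/-- origin vector of an edge -/
noncomputable def kv (i : ℕ) : w.Ph →ₗ[ℚ] ℚ := if (w.ℓ i).2 then w.v i else w.v (i + 1)

/-- terminus vector of an edge -/
noncomputable def tv (i : ℕ) : w.Ph →ₗ[ℚ] ℚ := if (w.ℓ i).2 then w.v (i + 1) else w.v i

theorem tv_apply (i : ℕ) (φ : w.Ph) : w.tv i φ = w.kv i φ + φ.1 (w.c i) := by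
  unfold tv kv
  have h := w.H_succ i φ.1
  by_cases hb : (w.ℓ i).2 = true
  · rw [if_pos hb, if_pos hb, v_apply, v_apply, h]
    simp [eps, hb]
  · rw [if_neg hb, if_neg hb, v_apply, v_apply, h]
    simp [eps, hb]

/-- half edges -/
def q (n : ℕ) : w.S × Bool := (w.c n, (w.ℓ n).2)
def q' (n : ℕ) : w.S × Bool := (w.c n, !(w.ℓ n).2)

theorem q_eq {m n : ℕ} : w.q m = w.q n ↔ w.ℓ m = w.ℓ n := by
  constructor
  · intro h
    have h1 : (w.ℓ m).1 = (w.ℓ n).1 := congrArg (fun z : w.S × Bool => z.1.1) h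
    have h2 : (w.ℓ m).2 = (w.ℓ n).2 := congrArg (fun z : w.S × Bool => z.2) h
    exact Prod.ext h1 h2
  · intro h
    exact Prod.ext (Subtype.ext (show (w.ℓ m).1 = (w.ℓ n).1 by rw [h]))
      (show (w.ℓ m).2 = (w.ℓ n).2 by rw [h])

theorem q_eq' {m n : ℕ} : w.q m = w.q' n ↔ w.ℓ m = inv (w.ℓ n) := by
  constructor
  · intro h
    have h1 : (w.ℓ m).1 = (w.ℓ n).1 := congrArg (fun z : w.S × Bool => z.1.1) h
    have h2 : (w.ℓ m).2 = !(w.ℓ n).2 := congrArg (fun z : w.S × Bool => z.2) h
    exact Prod.ext h1 h2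
  · intro h
    exact Prod.ext (Subtype.ext (show (w.ℓ m).1 = (w.ℓ n).1 by rw [h]; rfl))
      (show (w.ℓ m).2 = !(w.ℓ n).2 by rw [h]; rfl)

theorem q'_eq {m n : ℕ} : w.q' m = w.q' n ↔ w.ℓ m = w.ℓ n := by
  constructor
  · intro h
    have h1 : (w.ℓ m).1 = (w.ℓ n).1 := congrArg (fun z : w.S × Bool => z.1.1) h
    have h2 : (!(w.ℓ m).2) = !(w.ℓ n).2 := congrArg (fun z : w.S × Bool => z.2) h
    exact Prod.ext h1 (by simpa using h2)
  · intro h
    exact Prod.ext (Subtype.ext (show (w.ℓ m).1 = (w.ℓ n).1 by rw [h]))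
      (show (!(w.ℓ m).2) = !(w.ℓ n).2 by rw [h])

section
variable (h0 : ∀ i j, w.c i = w.c j → w.kv i = w.kv j)
include h0

theorem tv_eq {i j : ℕ} (h : w.c i = w.c j) : w.tv i = w.tv j := by
  ext φ
  rw [tv_apply, tv_apply, h0 i j h, h]

/-- the vertex of a half edge -/
theorem exists_beta : ∃ β : w.S × Bool → w.Vt, (∀ n, β (w.q n) = ⟨w.v n, n, rfl⟩) ∧
    ∀ n, β (w.q' n) = ⟨w.v (n + 1), n + 1, rfl⟩ := by
  classical
  refine ⟨fun z => if (w.ℓ z.1.2.choose).2 = z.2 then ⟨w.v z.1.2.choose, _, rfl⟩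
    else ⟨w.v (z.1.2.choose + 1), _, rfl⟩, ?_, ?_⟩
  · intro n
    have hm := (w.c n).2.choose_spec
    generalize hmm : (w.c n).2.choose = m at hm
    have hc : w.c m = w.c n := Subtype.ext hm
    have h1 := h0 m n hc
    have h2 := w.tv_eq h0 hc
    show (if (w.ℓ (w.c n).2.choose).2 = (w.ℓ n).2 then (⟨w.v (w.c n).2.choose, _, rfl⟩ : w.Vt)
      else ⟨w.v ((w.c n).2.choose + 1), _, rfl⟩) = _
    apply Subtype.ext
    rw [hmm]
    unfold kv at h1
    unfold tv at h2
    cases hb : (w.ℓ m).2 <;> cases hb' : (w.ℓ n).2 <;> simp [hb, hb'] at h1 h2 ⊢ <;> assumption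
  · intro n
    have hm := (w.c n).2.choose_spec
    generalize hmm : (w.c n).2.choose = m at hm
    have hc : w.c m = w.c n := Subtype.ext hm
    have h1 := h0 m n hc
    have h2 := w.tv_eq h0 hc
    show (if (w.ℓ (w.c n).2.choose).2 = !(w.ℓ n).2 then (⟨w.v (w.c n).2.choose, _, rfl⟩ : w.Vt)
      else ⟨w.v ((w.c n).2.choose + 1), _, rfl⟩) = _
    apply Subtype.ext
    rw [hmm]
    unfold kv at h1
    unfold tv at h2
    cases hb : (w.ℓ m).2 <;> cases hb' : (w.ℓ n).2 <;> simp [hb, hb'] at h1 h2 ⊢ <;> assumption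

theorem two_of_three : ∃ β : w.S × Bool → w.Vt, ((∀ n, β (w.q n) = ⟨w.v n, n, rfl⟩) ∧
    ∀ n, β (w.q' n) = ⟨w.v (n + 1), n + 1, rfl⟩) ∧
    ∀ x y z, β x = β y → β x = β z → x ≠ y → z = x ∨ z = y := by
  classical
  obtain ⟨β, hβ, hβ'⟩ := w.exists_beta h0
  haveI : Fintype w.Vt := Fintype.ofFinite _
  refine ⟨β, ⟨hβ, hβ'⟩, ?_⟩
  -- each fibre has at least two elements
  have h2 : ∀ ν : w.Vt, 2 ≤ (Finset.univ.filter (fun z => β z = ν)).card := by
    rintro ⟨ν, n, rfl⟩
    obtain ⟨m, hm⟩ : ∃ m, w.v (m + 1) = w.v n := by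
      obtain ⟨k, hk⟩ := Nat.exists_eq_succ_of_ne_zero w.pos.ne'
      refine ⟨n + k, ?_⟩
      rw [← w.v_per n, hk]; rfl
    have hne : w.q (m + 1) ≠ w.q' m := by
      intro h
      exact w.red m (w.q_eq'.1 h)
    have hsub : ({w.q (m + 1), w.q' m} : Finset (w.S × Bool)) ⊆
        Finset.univ.filter (fun z => β z = ⟨w.v n, n, rfl⟩) := by
      intro z hz
      rw [Finset.mem_insert, Finset.mem_singleton] at hz
      rw [Finset.mem_filter]
      refine ⟨Finset.mem_univ _, ?_⟩
      rcases hz with rfl | rfl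
      · rw [hβ]; exact Subtype.ext hm
      · rw [hβ']; exact Subtype.ext hm
    calc 2 = ({w.q (m + 1), w.q' m} : Finset (w.S × Bool)).card := (Finset.card_pair hne).symm
      _ ≤ _ := Finset.card_le_card hsub
  -- counting
  have hsum : ∑ ν : w.Vt, (Finset.univ.filter (fun z => β z = ν)).card =
      Fintype.card (w.S × Bool) := by
    rw [← Finset.card_univ]
    exact (Finset.card_eq_sum_card_fiberwise (fun z _ => Finset.mem_univ (β z))).symm
  have hle := w.card_S_le
  rw [Nat.card_eq_fintype_card, Nat.card_eq_fintype_card] at hle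
  have hcard : Fintype.card (w.S × Bool) = 2 * Fintype.card w.S := by
    rw [Fintype.card_prod, Fintype.card_bool, mul_comm]
  have hconst : ∑ _ν : w.Vt, 2 = 2 * Fintype.card w.Vt := by
    rw [Finset.sum_const, Finset.card_univ, smul_eq_mul, mul_comm]
  have hge : ∑ _ν : w.Vt, 2 ≤ ∑ ν : w.Vt, (Finset.univ.filter (fun z => β z = ν)).card :=
    Finset.sum_le_sum (fun ν _ => h2 ν)
  have heq : ∑ _ν : w.Vt, 2 = ∑ ν : w.Vt, (Finset.univ.filter (fun z => β z = ν)).card := by
    omega
  have hall := (Finset.sum_eq_sum_iff_of_le (fun ν _ => h2 ν)).1 heq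
  intro x y z hxy hxz hne
  have hfib := hall (β x) (Finset.mem_univ _)
  by_contra hcon
  push Not at hcon
  have hsub : ({x, y, z} : Finset (w.S × Bool)) ⊆
      Finset.univ.filter (fun z => β z = β x) := by
    intro u hu
    simp only [Finset.mem_insert, Finset.mem_singleton] at hu
    rw [Finset.mem_filter]
    refine ⟨Finset.mem_univ _, ?_⟩
    rcases hu with rfl | rfl | rfl
    · rfl
    · exact hxy.symm
    · exact hxz.symm
  have h3 : ({x, y, z} : Finset (w.S × Bool)).card = 3 := by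
    rw [Finset.card_eq_three]
    exact ⟨x, y, z, hne, fun h => hcon.1 h.symm, fun h => hcon.2 h.symm, rfl⟩
  have := Finset.card_le_card hsub
  omega

theorem base_of_unsep : w.Base := by
  obtain ⟨β, ⟨hβ, hβ'⟩, h3⟩ := w.two_of_three h0
  -- same letters have the same successor
  have hs : ∀ i j, w.ℓ i = w.ℓ j → w.ℓ (i + 1) = w.ℓ (j + 1) := by
    intro i j hij
    have e : w.q' i = w.q' j := w.q'_eq.2 hij
    have h1 : β (w.q' i) = β (w.q (i + 1)) := by rw [hβ', hβ]
    have h2 : β (w.q' i) = β (w.q (j + 1)) := by rw [e, hβ', hβ]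
    have h4 : w.q' i ≠ w.q (i + 1) := fun h => w.red i (w.q_eq'.1 h.symm)
    rcases h3 _ _ _ h1 h2 h4 with h5 | h5
    · exfalso
      rw [e] at h5
      exact w.red j (w.q_eq'.1 h5)
    · exact (w.q_eq.1 h5).symm
  have hs' : ∀ m i j, w.ℓ i = w.ℓ j → w.ℓ (i + m) = w.ℓ (j + m) := by
    intro m
    induction m with
    | zero => intro i j h; exact h
    | succ m ih => intro i j h; exact hs _ _ (ih i j h)
  -- no inverse letters
  have hn : ∀ d i, w.ℓ (i + d) ≠ inv (w.ℓ i) := by
    intro d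
    induction d using Nat.strong_induction_on with
    | _ d ih =>
      intro i h
      rcases Nat.lt_or_ge d 2 with hd | hd
      · interval_cases d
        · have := congrArg Prod.snd h
          simp [inv] at this
        · exact w.red i h
      · obtain ⟨e, rfl⟩ := Nat.exists_eq_add_of_le hd
        apply ih e (by omega) (i + 1)
        -- vertices at `i+1` and `i+2+e`
        have h1 : w.q' i = w.q (i + (2 + e)) := (w.q_eq'.2 h).symm
        have h2 : β (w.q' i) = β (w.q (i + 1)) := by rw [hβ', hβ]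
        have h4 : β (w.q' i) = β (w.q' (i + 1 + e)) := by
          rw [h1, hβ, hβ']
          apply Subtype.ext
          show w.v _ = w.v _
          congr 1
          omega
        have h5 : w.q' i ≠ w.q (i + 1) := fun h => w.red i (w.q_eq'.1 h.symm)
        rcases h3 _ _ _ h2 h4 h5 with h6 | h6
        · exfalso
          rw [h1] at h6
          apply w.red (i + 1 + e)
          have := w.q_eq'.1 h6.symm
          rw [← this]
          congr 1
          omega
        · have h7 := w.q_eq'.1 h6.symm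
          -- ℓ (i+1) = inv (ℓ (i+1+e))
          rw [h7, inv_inv]
  intro i j hi hj hij
  have key : ∀ i j, i < w.L → j < w.L → i ≤ j → (w.ℓ i).1 = (w.ℓ j).1 → i = j := by
    intro i j hi hj hle hij
    by_cases hb : (w.ℓ i).2 = (w.ℓ j).2
    · have he : w.ℓ i = w.ℓ j := Prod.ext hij hb
      have hper : ∀ n, w.ℓ (n + (j - i)) = w.ℓ n := by
        intro n
        have h1 := hs' (n + w.L * i - i) i j he
        have h2 : i ≤ n + w.L * i := by
          have := w.pos
          nlinarith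
        have e1 : i + (n + w.L * i - i) = n + w.L * i := by omega
        have e2 : j + (n + w.L * i - i) = n + (j - i) + w.L * i := by omega
        rw [e1, e2, per_mul, per_mul] at h1
        exact h1.symm
      have h1 := w.prim _ hper
      have h2 := Nat.eq_zero_of_dvd_of_lt h1 (by omega)
      omega
    · exfalso
      apply hn (j - i) i
      have e : i + (j - i) = j := by omega
      rw [e]
      unfold inv
      refine Prod.ext hij.symm ?_
      show (w.ℓ j).2 = !(w.ℓ i).2
      cases h1 : (w.ℓ i).2 <;> cases h2 : (w.ℓ j).2 <;> simp_all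
  rcases le_total i j with h | h
  · exact key i j hi hj h hij
  · exact (key j i hj hi h hij.symm).symm

end

/-- If two letters of a period agree, there is an integral height function which vanishes on the
word and separates two edges with the same letter. -/
theorem exists_sep (h : ¬ w.Base) : ∃ φ : X → ℤ, w.ht φ w.L = 0 ∧
    ∃ i j, (w.ℓ i).1 = (w.ℓ j).1 ∧ w.kt φ i ≠ w.kt φ j := by
  classical
  have h1 : ¬ ∀ i j, w.c i = w.c j → w.kv i = w.kv j := fun h0 => h (w.base_of_unsep h0)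
  push Not at h1
  obtain ⟨i, j, hij, hne⟩ := h1
  obtain ⟨φ, hφ⟩ : ∃ φ : w.Ph, w.kv i φ ≠ w.kv j φ := by
    by_contra hcon
    push Not at hcon
    exact hne (LinearMap.ext hcon)
  obtain ⟨N, hN⟩ := IsLocalization.exist_integer_multiples_of_finite (nonZeroDivisors ℤ)
    (fun x : w.S => φ.1 x)
  choose ψ hψ using hN
  have hN0 : ((N : ℤ) : ℚ) ≠ 0 := by
    have := nonZeroDivisors.coe_ne_zero N
    exact_mod_cast this
  have hψ' : ∀ x : w.S, (ψ x : ℚ) = (N : ℤ) * φ.1 x := by
    intro x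
    have := hψ x
    simpa [Algebra.smul_def] using this
  let φ' : X → ℤ := fun x => if h : ∃ n, (w.ℓ n).1 = x then ψ ⟨x, h⟩ else 0
  have hφ' : ∀ n, φ' (w.ℓ n).1 = ψ (w.c n) := by
    intro n
    exact dif_pos (⟨n, rfl⟩ : ∃ m, (w.ℓ m).1 = (w.ℓ n).1)
  have hht : ∀ n, (w.ht φ' n : ℚ) = (N : ℤ) * w.H n φ.1 := by
    intro n
    rw [ht, H_apply, Finset.mul_sum]
    push_cast
    apply Finset.sum_congr rfl
    intro i _
    rw [hφ', hψ']
    ring
  have hkt : ∀ n, (w.kt φ' n : ℚ) = (N : ℤ) * w.kv n φ := by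
    intro n
    unfold kt kv
    split_ifs
    · rw [hht, v_apply]
    · rw [hht, v_apply]
  refine ⟨φ', ?_, i, j, congrArg Subtype.val hij, ?_⟩
  · have h2 := hht w.L
    have h3 : w.H w.L φ.1 = 0 := φ.2
    rw [h3, mul_zero] at h2
    exact_mod_cast h2
  · intro hk
    apply hφ
    have h2 := hkt i
    rw [hk, hkt j] at h2
    exact (mul_left_cancel₀ hN0 h2).symm

end Wd
end Pool.H679R3.OR
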