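import Pool.Agent.H679R3.OR.Sep2

set_option autoImplicit false

/-!
# The HNN step
-/

namespace Pool.H679R3.OR
namespace Wd

variable {X : Type} (w : Wd X)

theorem ht_zero (φ : X → ℤ) : w.ht φ 0 = 0 := by simp [ht]

theorem ht_succ (φ : X → ℤ) (n : ℕ) :
    w.ht φ (n + 1) = w.ht φ n + w.eps n * φ (w.ℓ n).1 := by
  rw [ht, ht, Finset.sum_range_succ]

theorem ht_per {φ : X → ℤ} (h : w.ht φ w.L = 0) (n : ℕ) : w.ht φ (n + w.L) = w.ht φ n := by
  induction n with
  | zero => rw [zero_add, h, ht_zero]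
  | succ n ih =>
    have e : n + 1 + w.L = (n + w.L) + 1 := by omega
    rw [e, ht_succ, ht_succ, ih, eps_per, w.per]

theorem kt_per {φ : X → ℤ} (h : w.ht φ w.L = 0) (n : ℕ) : w.kt φ (n + w.L) = w.kt φ n := by
  unfold kt
  have e : n + w.L + 1 = (n + 1) + w.L := by omega
  rw [w.per, e, w.ht_per h, w.ht_per h]

theorem kt_mod {φ : X → ℤ} (h : w.ht φ w.L = 0) (n : ℕ) : w.kt φ (n % w.L) = w.kt φ n := by
  have h' : ∀ k m, w.kt φ (m + w.L * k) = w.kt φ m := by
    intro k m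
    induction k with
    | zero => simp
    | succ k ih => rw [Nat.mul_succ, ← add_assoc, w.kt_per h, ih]
  conv_rhs => rw [← Nat.mod_add_div n w.L]
  rw [h']

/-- the lifted word -/
def up (φ : X → ℤ) (h : w.ht φ w.L = 0) : Wd (X × ℤ) where
  ℓ n := (((w.ℓ n).1, w.kt φ n), (w.ℓ n).2)
  L := w.L
  pos := w.pos
  per n := by rw [w.per, w.kt_per h]
  red n := by
    intro h'
    apply w.red n
    have h1 := congrArg (fun z : (X × ℤ) × Bool => (z.1.1, z.2)) h'
    exact h1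
  prim d hd := by
    apply w.prim d
    intro n
    exact congrArg (fun z : (X × ℤ) × Bool => (z.1.1, z.2)) (hd n)

theorem card_S_le_L : Nat.card w.S ≤ w.L := by
  have : Function.Surjective (fun i : Fin w.L => w.c i) := by
    rintro ⟨x, n, rfl⟩
    exact ⟨⟨n % w.L, Nat.mod_lt _ w.pos⟩, w.c_mod n⟩
  have h := Nat.card_le_card_of_surjective _ this
  simpa using h

theorem card_up {φ : X → ℤ} (h : w.ht φ w.L = 0) {i j : ℕ} (hij : (w.ℓ i).1 = (w.ℓ j).1)
    (hne : w.kt φ i ≠ w.kt φ j) : Nat.card w.S < Nat.card (w.up φ h).S := by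
  classical
  let f : (w.up φ h).S → w.S := fun z => ⟨z.1.1, by
    obtain ⟨n, hn⟩ := z.2
    exact ⟨n, congrArg Prod.fst hn⟩⟩
  have hf : Function.Surjective f := by
    rintro ⟨x, n, rfl⟩
    exact ⟨(w.up φ h).c n, rfl⟩
  have hni : ¬ Function.Injective f := by
    intro hinj
    have h1 : f ((w.up φ h).c i) = f ((w.up φ h).c j) := Subtype.ext hij
    have h2 := congrArg (fun z : (w.up φ h).S => z.1.2) (hinj h1)
    exact hne h2
  have : Fintype w.S := inferInstance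
  have : Fintype (w.up φ h).S := inferInstance
  rw [Nat.card_eq_fintype_card, Nat.card_eq_fintype_card]
  exact Fintype.card_lt_of_surjective_not_injective f hf hni

/-- the HNN extension -/
theorem exists_E {φ : X → ℤ} (h : w.ht φ w.L = 0) (hF : (w.up φ h).Frei) (a : X)
    (ha : ∃ n, (w.ℓ n).1 = a) :
    ∃ (μ M : ℤ), (∃ n, (w.ℓ n).1 = a ∧ w.kt φ n = μ) ∧
      (∀ n, (w.ℓ n).1 = a → μ ≤ w.kt φ n ∧ w.kt φ n ≤ M) ∧
    ∃ (E : Type) (_ : Group E) (o : (w.up φ h).B →* E) (t : E) (δ : E →* Multiplicative ℤ),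
      Function.Injective o ∧ δ t = Multiplicative.ofAdd 1 ∧ (∀ b, δ (o b) = 1) ∧
      (∀ x k, x ≠ a → t * o ((w.up φ h).b (x, k)) * t⁻¹ = o ((w.up φ h).b (x, k + 1))) ∧
      (∀ k, μ ≤ k → k < M → t * o ((w.up φ h).b (a, k)) * t⁻¹ = o ((w.up φ h).b (a, k + 1))) := by
  classical
  let K : Finset ℤ := ((Finset.range w.L).filter (fun i => (w.ℓ i).1 = a)).image (w.kt φ)
  have hmem : ∀ n, (w.ℓ n).1 = a → w.kt φ n ∈ K := by
    intro n hn
    refine Finset.mem_image.2 ⟨n % w.L, Finset.mem_filter.2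
      ⟨Finset.mem_range.2 (Nat.mod_lt _ w.pos), by rw [w.per_mod, hn]⟩, w.kt_mod h n⟩
  obtain ⟨n0, hn0⟩ := ha
  have hK : K.Nonempty := ⟨_, hmem n0 hn0⟩
  have hKex : ∀ k ∈ K, ∃ n, (w.ℓ n).1 = a ∧ w.kt φ n = k := by
    intro k hk
    obtain ⟨n, hn, rfl⟩ := Finset.mem_image.1 hk
    exact ⟨n, (Finset.mem_filter.1 hn).2, rfl⟩
  set μ := K.min' hK with hμ
  set M := K.max' hK with hM
  obtain ⟨nμ, hnμ, hkμ⟩ := hKex μ (K.min'_mem hK)
  obtain ⟨nM, hnM, hkM⟩ := hKex M (K.max'_mem hK)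
  refine ⟨μ, M, ⟨nμ, hnμ, hkμ⟩, fun n hn => ⟨K.min'_le _ (hmem n hn), K.le_max' _ (hmem n hn)⟩, ?_⟩
  let Y := {y : X × ℤ // y.1 ≠ a ∨ (μ ≤ y.2 ∧ y.2 < M)}
  let g1 : Y → X × ℤ := fun y => y.1
  let g2 : Y → X × ℤ := fun y => (y.1.1, y.1.2 + 1)
  have hg1 : Function.Injective g1 := Subtype.val_injective
  have hg2 : Function.Injective g2 := by
    intro y y' hyy
    have e1 := congrArg Prod.fst hyy
    have e2 := congrArg Prod.snd hyy
    apply Subtype.ext
    apply Prod.ext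
    · exact e1
    · have : y.1.2 + 1 = y'.1.2 + 1 := e2
      omega
  have hj1 : Function.Injective (FreeGroup.lift (fun y => (w.up φ h).b (g1 y))) := by
    refine hF (a, M) ⟨nM, ?_⟩ Y g1 hg1 ?_
    · show ((w.ℓ nM).1, w.kt φ nM) = (a, M)
      rw [hnM, hkM]
    · rintro ⟨⟨x, k⟩, hy⟩ he
      have e1 : x = a := congrArg Prod.fst he
      have e2 : k = M := congrArg Prod.snd he
      rcases hy with hy | hy
      · exact hy e1
      · have := hy.2
        simp only at this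
        omega
  have hj2 : Function.Injective (FreeGroup.lift (fun y => (w.up φ h).b (g2 y))) := by
    refine hF (a, μ) ⟨nμ, ?_⟩ Y g2 hg2 ?_
    · show ((w.ℓ nμ).1, w.kt φ nμ) = (a, μ)
      rw [hnμ, hkμ]
    · rintro ⟨⟨x, k⟩, hy⟩ he
      have e1 : x = a := congrArg Prod.fst he
      have e2 : k + 1 = μ := congrArg Prod.snd he
      rcases hy with hy | hy
      · exact hy e1
      · have := hy.1
        simp only at this
        omega
  set j1 := FreeGroup.lift (fun y => (w.up φ h).b (g1 y)) with hj1d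
  set j2 := FreeGroup.lift (fun y => (w.up φ h).b (g2 y)) with hj2d
  let e1 := MonoidHom.ofInjective hj1
  let e2 := MonoidHom.ofInjective hj2
  let θ : j1.range ≃* j2.range := e1.symm.trans e2
  have hθ : ∀ c : FreeGroup Y, ((θ ⟨j1 c, c, rfl⟩ : j2.range) : (w.up φ h).B) = j2 c := by
    intro c
    have : e1 c = ⟨j1 c, c, rfl⟩ := rfl
    rw [← this]
    show ((e2 (e1.symm (e1 c)) : j2.range) : (w.up φ h).B) = j2 c
    rw [MulEquiv.symm_apply_apply]
    rfl
  have hrel : ∀ y : Y, (HNNExtension.t : HNNExtension (w.up φ h).B j1.range j2.range θ) *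
      HNNExtension.of ((w.up φ h).b (g1 y)) * HNNExtension.t⁻¹ =
      HNNExtension.of ((w.up φ h).b (g2 y)) := by
    intro y
    have h1 := HNNExtension.equiv_eq_conj (φ := θ) ⟨j1 (FreeGroup.of y), FreeGroup.of y, rfl⟩
    rw [hθ] at h1
    have h2 : j1 (FreeGroup.of y) = (w.up φ h).b (g1 y) := by
      rw [hj1d, FreeGroup.lift_apply_of]
    have h3 : j2 (FreeGroup.of y) = (w.up φ h).b (g2 y) := by
      rw [hj2d, FreeGroup.lift_apply_of]
    rw [h3] at h1
    rw [h1]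
    show _ = HNNExtension.t * HNNExtension.of (j1 (FreeGroup.of y)) * HNNExtension.t⁻¹
    rw [h2]
  refine ⟨HNNExtension (w.up φ h).B j1.range j2.range θ, inferInstance, HNNExtension.of,
    HNNExtension.t, HNNExtension.lift 1 (Multiplicative.ofAdd 1) (by intro a; simp),
    HNNExtension.of_injective _, HNNExtension.lift_t _ _ _, ?_, ?_, ?_⟩
  · intro b
    rw [HNNExtension.lift_of]; rfl
  · intro x k hx
    exact hrel ⟨(x, k), Or.inl hx⟩
  · intro k hk1 hk2
    exact hrel ⟨(a, k), Or.inr ⟨hk1, hk2⟩⟩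

end Wd
end Pool.H679R3.OR
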