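import Pool.Agent.H679R3.OR.Step

set_option autoImplicit false

/-!
# The HNN step, conclusion
-/

namespace Pool.H679R3.OR
namespace Wd

variable {X : Type} (w : Wd X)

section emb
variable {φ : X → ℤ} (h : w.ht φ w.L = 0) {a : X} {μ M : ℤ}
  (hμ : ∃ n, (w.ℓ n).1 = a ∧ w.kt φ n = μ)
  (hb : ∀ n, (w.ℓ n).1 = a → μ ≤ w.kt φ n ∧ w.kt φ n ≤ M)
  {E : Type} [Group E] (o : (w.up φ h).B →* E) (t : E)
  (r1 : ∀ x k, x ≠ a → t * o ((w.up φ h).b (x, k)) * t⁻¹ = o ((w.up φ h).b (x, k + 1)))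
  (r2 : ∀ k, μ ≤ k → k < M → t * o ((w.up φ h).b (a, k)) * t⁻¹ = o ((w.up φ h).b (a, k + 1)))

open Classical in
/-- the base values -/
noncomputable def bet (μ : ℤ) (a : X) (o : (w.up φ h).B →* E) (t : E) : X → E := fun x =>
  if x = a then t ^ (-μ) * o ((w.up φ h).b (a, μ)) * t ^ μ else o ((w.up φ h).b (x, 0))

include r1 in
theorem conj_ne (x : X) (hx : x ≠ a) (k m : ℤ) :
    t ^ k * o ((w.up φ h).b (x, m)) * t ^ (-k) = o ((w.up φ h).b (x, m + k)) := by
  induction k using Int.induction_on with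
  | zero => simp
  | succ i ih =>
    have e1 : t ^ ((i : ℤ) + 1) = t * t ^ (i : ℤ) := by rw [add_comm, zpow_add, zpow_one]
    have e2 : t ^ (-((i : ℤ) + 1)) = t ^ (-(i : ℤ)) * t⁻¹ := by
      rw [neg_add, zpow_add, zpow_neg_one]
    rw [e1, e2]
    calc t * t ^ (i : ℤ) * o ((w.up φ h).b (x, m)) * (t ^ (-(i : ℤ)) * t⁻¹)
        = t * (t ^ (i : ℤ) * o ((w.up φ h).b (x, m)) * t ^ (-(i : ℤ))) * t⁻¹ := by group
      _ = _ := by rw [ih, r1 x _ hx, add_assoc]
  | pred i ih =>
    have e1 : t ^ (-(i : ℤ) - 1) = t⁻¹ * t ^ (-(i : ℤ)) := by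
      rw [sub_eq_add_neg, add_comm, zpow_add, zpow_neg_one]
    have e2 : t ^ (-(-(i : ℤ) - 1)) = t ^ (-(-(i : ℤ))) * t := by
      rw [neg_sub, sub_neg_eq_add, add_comm, zpow_add, zpow_one, neg_neg]
    rw [e1, e2]
    have h1 := r1 x (m + (-(i : ℤ) - 1)) hx
    have e3 : m + (-(i : ℤ) - 1) + 1 = m + -(i : ℤ) := by ring
    rw [e3, ← ih] at h1
    calc t⁻¹ * t ^ (-(i : ℤ)) * o ((w.up φ h).b (x, m)) * (t ^ (-(-(i : ℤ))) * t)
        = t⁻¹ * (t ^ (-(i : ℤ)) * o ((w.up φ h).b (x, m)) * t ^ (-(-(i : ℤ)))) * t := by group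
      _ = _ := by rw [← h1]; group

include r2 in
theorem conj_a (d : ℕ) (hd : μ + d ≤ M) :
    t ^ (d : ℤ) * o ((w.up φ h).b (a, μ)) * t ^ (-(d : ℤ)) = o ((w.up φ h).b (a, μ + d)) := by
  induction d with
  | zero => simp
  | succ i ih =>
    push_cast at hd ⊢
    have ih' := ih (by omega)
    have e1 : t ^ ((i : ℤ) + 1) = t * t ^ (i : ℤ) := by rw [add_comm, zpow_add, zpow_one]
    have e2 : t ^ (-((i : ℤ) + 1)) = t ^ (-(i : ℤ)) * t⁻¹ := by
      rw [neg_add, zpow_add, zpow_neg_one]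
    rw [e1, e2]
    calc t * t ^ (i : ℤ) * o ((w.up φ h).b (a, μ)) * (t ^ (-(i : ℤ)) * t⁻¹)
        = t * (t ^ (i : ℤ) * o ((w.up φ h).b (a, μ)) * t ^ (-(i : ℤ))) * t⁻¹ := by group
      _ = _ := by rw [ih', r2 _ (by omega) (by omega), add_assoc]

include hb r1 r2 in
theorem conj_bet (n : ℕ) :
    t ^ (w.kt φ n) * w.bet h μ a o t (w.ℓ n).1 * t ^ (-(w.kt φ n)) =
      o ((w.up φ h).b ((w.ℓ n).1, w.kt φ n)) := by
  by_cases hx : (w.ℓ n).1 = a
  · rw [bet, if_pos hx, hx]
    obtain ⟨h1, h2⟩ := hb n hx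
    obtain ⟨d, hd⟩ := Int.eq_ofNat_of_zero_le (sub_nonneg.2 h1)
    have e : w.kt φ n = μ + d := by omega
    have h3 := conj_a w h o t r2 d (by omega)
    rw [e, ← h3]
    group
  · rw [bet, if_neg hx]
    have := conj_ne w h o t r1 _ hx (w.kt φ n) 0
    rw [this, zero_add]

/-- the images of the generators -/
noncomputable def psi (μ : ℤ) (a : X) (o : (w.up φ h).B →* E) (t : E) : X → E := fun x =>
  w.bet h μ a o t x * t ^ (φ x)

include hb r1 r2 in
theorem W_psi (n : ℕ) : W (w.psi h μ a o t) w.ℓ n =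
    o (W (w.up φ h).b (w.up φ h).ℓ n) * t ^ (w.ht φ n) := by
  induction n with
  | zero => simp [W, ht_zero]
  | succ n ih =>
    rw [W_succ, W_succ, ih, map_mul]
    have hc := conj_bet w h hb o t r1 r2 n
    have hs := w.ht_succ φ n
    have hlet : (w.up φ h).ℓ n = (((w.ℓ n).1, w.kt φ n), (w.ℓ n).2) := rfl
    rw [hlet]
    cases hbn : (w.ℓ n).2 with
    | true =>
      have hk : w.kt φ n = w.ht φ n := by unfold kt; rw [if_pos hbn]
      have he : w.eps n = 1 := by unfold eps; rw [if_pos hbn]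
      have hl : w.ℓ n = ((w.ℓ n).1, true) := Prod.ext rfl hbn
      rw [he, one_mul] at hs
      rw [hk] at hc ⊢
      rw [hs, sg_true, ← hc]
      have : sg (w.psi h μ a o t) (w.ℓ n) = w.bet h μ a o t (w.ℓ n).1 * t ^ (φ (w.ℓ n).1) := by
        rw [hl]; rfl
      rw [this]
      group
    | false =>
      have hk : w.kt φ n = w.ht φ (n + 1) := by
        unfold kt; rw [if_neg (by rw [hbn]; simp)]
      have he : w.eps n = -1 := by unfold eps; rw [if_neg (by rw [hbn]; simp)]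
      have hl : w.ℓ n = ((w.ℓ n).1, false) := Prod.ext rfl hbn
      rw [he] at hs
      rw [hk] at hc ⊢
      rw [sg_false, map_inv, ← hc]
      have : sg (w.psi h μ a o t) (w.ℓ n) = (w.bet h μ a o t (w.ℓ n).1 * t ^ (φ (w.ℓ n).1))⁻¹ := by
        rw [hl]; rfl
      rw [this]
      have e : w.ht φ n = w.ht φ (n + 1) + φ (w.ℓ n).1 := by rw [hs]; ring
      rw [e]
      group

include hb r1 r2 in
theorem exists_Psi : ∃ Ψ : w.B →* E, (∀ x, Ψ (w.b x) = w.psi h μ a o t x) ∧
    ∀ n, Ψ (W w.b w.ℓ n) = o (W (w.up φ h).b (w.up φ h).ℓ n) * t ^ (w.ht φ n) := by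
  have h1 : W (w.psi h μ a o t) w.ℓ w.L = 1 := by
    rw [W_psi w h hb o t r1 r2]
    have : W (w.up φ h).b (w.up φ h).ℓ w.L = 1 := (w.up φ h).W_b
    rw [this, h, map_one, zpow_zero, one_mul]
  obtain ⟨Ψ, hΨ⟩ := w.exists_lift _ h1
  refine ⟨Ψ, hΨ, fun n => ?_⟩
  rw [map_W, ← W_psi w h hb o t r1 r2]
  congr 1
  funext x
  exact hΨ x

end emb

theorem ord_step {φ : X → ℤ} (h : w.ht φ w.L = 0) (hF : (w.up φ h).Frei)
    (hO : (w.up φ h).Ord) : w.Ord := by
  classical
  obtain ⟨μ, M, -, hb, E, _, o, t, δ, ho, hδt, hδo, r1, r2⟩ :=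
    w.exists_E h hF (w.ℓ 0).1 ⟨0, rfl⟩
  obtain ⟨Ψ, -, hΨ⟩ := exists_Psi w h hb o t r1 r2
  obtain ⟨O, _, ρ, hρ1, hρ2, hρ3⟩ := hO
  refine ⟨ℤ ×ₗ O, inferInstance, fun n => toLex (w.ht φ n, ρ n), ?_, ?_, ?_⟩
  · intro n
    have e1 : ρ (n + w.L) = ρ n := hρ1 n
    show toLex (w.ht φ (n + w.L), ρ (n + w.L)) = toLex (w.ht φ n, ρ n)
    rw [w.ht_per h, e1]
  · intro i j hij
    exact hρ2 i j (congrArg (fun z => (ofLex z).2) hij)
  · intro l hl hlt hprod
    have hle : ∀ q ∈ l, w.ht φ q.2 ≤ w.ht φ q.1 := by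
      intro q hq
      have := hlt q hq
      rw [Prod.Lex.toLex_lt_toLex] at this
      rcases this with h1 | h1
      · exact h1.le
      · exact h1.1.le
    -- apply δ
    have key : ∀ l : List (ℕ × ℕ), (∀ q ∈ l, w.ht φ q.2 ≤ w.ht φ q.1) →
        ∃ s : ℤ, 0 ≤ s ∧ δ (Ψ (l.map (fun q => W w.b w.ℓ q.1 * (W w.b w.ℓ q.2)⁻¹)).prod) =
          Multiplicative.ofAdd s ∧ (s = 0 → ∀ q ∈ l, w.ht φ q.1 = w.ht φ q.2) := by
      intro l
      induction l with
      | nil => intro _; exact ⟨0, le_rfl, by simp, by simp⟩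
      | cons q l ih =>
        intro hq
        obtain ⟨s, hs, hs', hs''⟩ := ih (fun q' hq' => hq q' (List.mem_cons_of_mem _ hq'))
        have hq0 := hq q List.mem_cons_self
        refine ⟨(w.ht φ q.1 - w.ht φ q.2) + s, by omega, ?_, ?_⟩
        · rw [List.map_cons, List.prod_cons, map_mul, map_mul, hs', map_mul, map_inv, hΨ, hΨ]
          simp only [map_mul, map_inv, map_zpow, hδo, hδt, one_mul]
          rw [← ofAdd_zsmul, ← ofAdd_zsmul, ← ofAdd_neg, ← ofAdd_add, ← ofAdd_add]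
          congr 1
          simp
          ring
        · intro hs0 q' hq'
          rcases List.mem_cons.1 hq' with rfl | hq'
          · omega
          · exact hs'' (by omega) q' hq'
    obtain ⟨s, hs, hs', hs''⟩ := key l hle
    rw [hprod, map_one, map_one] at hs'
    have hs0 : s = 0 := by
      have : Multiplicative.ofAdd (0 : ℤ) = Multiplicative.ofAdd s := hs'
      exact (Multiplicative.ofAdd.injective this).symm
    have heq := hs'' hs0
    apply hρ3 l hl
    · intro q hq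
      have := hlt q hq
      rw [Prod.Lex.toLex_lt_toLex] at this
      rcases this with h1 | h1
      · have := heq q hq
        simp only at h1
        omega
      · exact h1.2
    · apply ho
      rw [map_one, map_list_prod, List.map_map]
      have h1 : Ψ (l.map (fun q => W w.b w.ℓ q.1 * (W w.b w.ℓ q.2)⁻¹)).prod = 1 := by
        rw [hprod, map_one]
      rw [map_list_prod, List.map_map] at h1
      rw [← h1]
      congr 1
      apply List.map_congr_left
      intro q hq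
      show o (W (w.up φ h).b (w.up φ h).ℓ q.1 * (W (w.up φ h).b (w.up φ h).ℓ q.2)⁻¹) =
        Ψ (W w.b w.ℓ q.1 * (W w.b w.ℓ q.2)⁻¹)
      rw [map_mul, map_mul, map_inv, map_inv, hΨ, hΨ, heq q hq]
      group

theorem frei_step {φ : X → ℤ} (h : w.ht φ w.L = 0) (hF : (w.up φ h).Frei) : w.Frei := by
  classical
  intro a ha Y g hg hga
  obtain ⟨μ, M, ⟨nμ, hnμ, hkμ⟩, hb, E, _, o, t, δ, ho, hδt, hδo, r1, r2⟩ := w.exists_E h hF a ha
  obtain ⟨Ψ, hΨ, -⟩ := exists_Psi w h hb o t r1 r2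
  -- injectivity upstairs
  have hup : Function.Injective (FreeGroup.lift (fun z : Y × ℤ => (w.up φ h).b (g z.1, z.2))) := by
    refine hF (a, μ) ⟨nμ, ?_⟩ (Y × ℤ) (fun z => (g z.1, z.2)) ?_ ?_
    · show ((w.ℓ nμ).1, w.kt φ nμ) = (a, μ)
      rw [hnμ, hkμ]
    · intro z z' hz
      have e1 := congrArg Prod.fst hz
      have e2 := congrArg Prod.snd hz
      exact Prod.ext (hg e1) e2
    · intro z hz
      exact hga _ (congrArg Prod.fst hz)
  -- the shift
  let sh : ℤ → MulAut (FreeGroup (Y × ℤ)) := fun k =>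
    FreeGroup.freeGroupCongr (Equiv.prodCongr (Equiv.refl Y) (Equiv.addRight k))
  have hsh : ∀ k y m, sh k (FreeGroup.of (y, m)) = FreeGroup.of (y, m + k) := by
    intro k y m
    simp [sh]
  let act : Multiplicative ℤ →* MulAut (FreeGroup (Y × ℤ)) :=
    { toFun := fun k => sh k.toAdd
      map_one' := by
        apply MulEquiv.toMonoidHom_injective
        apply FreeGroup.ext_hom
        rintro ⟨y, m⟩
        show sh 0 (FreeGroup.of (y, m)) = FreeGroup.of (y, m)
        rw [hsh, add_zero]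
      map_mul' := fun k k' => by
        apply MulEquiv.toMonoidHom_injective
        apply FreeGroup.ext_hom
        rintro ⟨y, m⟩
        show sh (k.toAdd + k'.toAdd) (FreeGroup.of (y, m)) =
          sh k.toAdd (sh k'.toAdd (FreeGroup.of (y, m)))
        rw [hsh, hsh, hsh]
        congr 2
        ring }
  have hact : ∀ k y m, act k (FreeGroup.of (y, m)) = FreeGroup.of (y, m + k.toAdd) :=
    fun k y m => hsh k.toAdd y m
  let Θ : FreeGroup Y →* FreeGroup (Y × ℤ) ⋊[act] Multiplicative ℤ := FreeGroup.lift (fun y =>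
    SemidirectProduct.inl (FreeGroup.of (y, 0)) * SemidirectProduct.inr
      (Multiplicative.ofAdd (φ (g y))))
  -- the map to E
  let F : FreeGroup (Y × ℤ) →* E := o.comp (FreeGroup.lift
    (fun z : Y × ℤ => (w.up φ h).b (g z.1, z.2)))
  have hFF : ∀ y m, F (FreeGroup.of (y, m)) = o ((w.up φ h).b (g y, m)) := by
    intro y m
    show o (FreeGroup.lift _ (FreeGroup.of (y, m))) = _
    rw [FreeGroup.lift_apply_of]
  have hcompat : ∀ k : Multiplicative ℤ, F.comp (act k).toMonoidHom =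
      (MulAut.conj (zpowersHom E t k)).toMonoidHom.comp F := by
    intro k
    apply FreeGroup.ext_hom
    rintro ⟨y, m⟩
    show F (act k (FreeGroup.of (y, m))) = MulAut.conj (zpowersHom E t k) (F (FreeGroup.of (y, m)))
    rw [hact, hFF, hFF, MulAut.conj_apply]
    have h1 := conj_ne w h o t r1 (g y) (hga y) k.toAdd m
    rw [← h1, zpowersHom_apply, zpow_neg]
  let R : FreeGroup (Y × ℤ) ⋊[act] Multiplicative ℤ →* E :=
    SemidirectProduct.lift F (zpowersHom E t) hcompat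
  have hR1 : ∀ n, R (SemidirectProduct.inl n) = F n := fun n => SemidirectProduct.lift_inl _ _ _ n
  have hR2 : ∀ k, R (SemidirectProduct.inr k) = zpowersHom E t k :=
    fun k => SemidirectProduct.lift_inr _ _ _ k
  have hRT : ∀ c, R (Θ c) = Ψ (FreeGroup.lift (fun y => w.b (g y)) c) := by
    intro c
    have : R.comp Θ = Ψ.comp (FreeGroup.lift (fun y => w.b (g y))) := by
      apply FreeGroup.ext_hom
      intro y
      show R (Θ (FreeGroup.of y)) = Ψ (FreeGroup.lift _ (FreeGroup.of y))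
      rw [FreeGroup.lift_apply_of, FreeGroup.lift_apply_of, map_mul, hR1, hR2, hFF, hΨ, psi, bet,
        if_neg (hga y), zpowersHom_apply]
      rfl
    exact DFunLike.congr_fun this c
  -- forgetting
  let Fo : FreeGroup (Y × ℤ) ⋊[act] Multiplicative ℤ →* FreeGroup Y :=
    SemidirectProduct.lift (FreeGroup.map Prod.fst) 1 (by
      intro k
      apply FreeGroup.ext_hom
      rintro ⟨y, m⟩
      show FreeGroup.map Prod.fst (act k (FreeGroup.of (y, m))) = _
      rw [hact]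
      simp)
  have hFo : ∀ c, Fo (Θ c) = c := by
    intro c
    have : Fo.comp Θ = MonoidHom.id _ := by
      apply FreeGroup.ext_hom
      intro y
      show Fo (Θ (FreeGroup.of y)) = FreeGroup.of y
      rw [FreeGroup.lift_apply_of, map_mul]
      show SemidirectProduct.lift _ _ _ _ * SemidirectProduct.lift _ _ _ _ = _
      rw [SemidirectProduct.lift_inl, SemidirectProduct.lift_inr]
      simp
    exact DFunLike.congr_fun this c
  rw [injective_iff_map_eq_one]
  intro c hc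
  have h1 : R (Θ c) = 1 := by rw [hRT, hc, map_one]
  generalize hz : Θ c = z at h1
  obtain ⟨n, k⟩ := z
  have e : (⟨n, k⟩ : FreeGroup (Y × ℤ) ⋊[act] Multiplicative ℤ) =
      SemidirectProduct.inl n * SemidirectProduct.inr k := SemidirectProduct.mk_eq_inl_mul_inr k n
  rw [e, map_mul, hR1, hR2] at h1
  have h2 := congrArg δ h1
  have hδF : ∀ n, δ (F n) = 1 := fun n => hδo _
  rw [map_mul, hδF, one_mul, map_one, zpowersHom_apply, map_zpow, hδt] at h2
  have hk : k = 1 := by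
    have h3 : Multiplicative.ofAdd (1 : ℤ) ^ k.toAdd = k := by
      rw [← ofAdd_zsmul]; simp
    rw [h3] at h2
    exact h2
  rw [hk, map_one, mul_one] at h1
  have h4 : n = 1 := by
    apply hup
    rw [map_one]
    apply ho
    rw [map_one]
    exact h1
  rw [← hFo c, hz, h4, hk]
  exact map_one Fo

theorem main : w.Frei ∧ w.Ord := by
  have key : ∀ d : ℕ, ∀ (X : Type) (w : Wd X), w.L - Nat.card w.S = d → w.Frei ∧ w.Ord := by
    intro d
    induction d using Nat.strong_induction_on with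
    | _ d ih =>
      intro X w hd
      by_cases hB : w.Base
      · exact ⟨w.frei_base hB, w.ord_base hB⟩
      · obtain ⟨φ, h, i, j, hij, hne⟩ := w.exists_sep hB
        have h1 := w.card_up h hij hne
        have h2 := (w.up φ h).card_S_le_L
        have h3 : (w.up φ h).L = w.L := rfl
        obtain ⟨hF, hO⟩ := ih _ (by omega) _ (w.up φ h) rfl
        exact ⟨w.frei_step h hF, w.ord_step h hF hO⟩
  exact key _ X w rfl

end Wd
end Pool.H679R3.OR
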