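import Pool.Agent.H679R3.OR.Root

set_option autoImplicit false

/-!
# Marking an edge of a Cayley graph
-/

namespace Pool.H679R3.OR

/-- translation action on functions -/
def trn (Q Z : Type*) [Group Q] [Group Z] : Q →* MulAut (Q → Z) where
  toFun q :=
    { toFun := fun f v => f (v * q)
      invFun := fun f v => f (v * q⁻¹)
      left_inv := fun f => by funext v; simp
      right_inv := fun f => by funext v; simp
      map_mul' := fun f f' => rfl }
  map_one' := by
    ext f v
    show f (v * 1) = f v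
    rw [mul_one]
  map_mul' q q' := by
    ext f v
    show f (v * (q * q')) = f (v * q * q')
    rw [mul_assoc]

theorem trn_apply {Q Z : Type*} [Group Q] [Group Z] (q : Q) (f : Q → Z) (v : Q) :
    trn Q Z q f v = f (v * q) := rfl

theorem exists_T {X : Type} {Q Z : Type*} [Group Q] [Group Z] (q : X → Q) (f : X → Z) (g : Q)
    (a0 : X × Bool) (ζ : Z) :
    ∃ T : FreeGroup X →* (Q → Z) ⋊[trn Q Z] Q,
      (∀ c, (T c).right = FreeGroup.lift q c) ∧
      (∀ v c c', (T (c * c')).left v = (T c).left v * (T c').left (v * FreeGroup.lift q c)) ∧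
      (∀ v a, ¬ (a = a0 ∧ v = g) → ¬ (a = inv a0 ∧ v * sg q a = g) →
        (T (sg FreeGroup.of a)).left v = sg f a) ∧
      ((T (sg FreeGroup.of a0)).left g = ζ * sg f a0) ∧
      (∀ v, v * sg q (inv a0) = g →
        (T (sg FreeGroup.of (inv a0))).left v = sg f (inv a0) * ζ⁻¹) := by
  classical
  let δ : X → Q → Z := fun x v =>
    if x = a0.1 then
      if a0.2 = true then (if v = g then ζ * f x else f x)
      else (if v * q x = g then f x * ζ⁻¹ else f x)
    else f x
  let T : FreeGroup X →* (Q → Z) ⋊[trn Q Z] Q := FreeGroup.lift (fun x => ⟨δ x, q x⟩)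
  have hTx : ∀ x, T (FreeGroup.of x) = ⟨δ x, q x⟩ := fun x => FreeGroup.lift_apply_of
  have hr : ∀ c, (T c).right = FreeGroup.lift q c := by
    intro c
    have : SemidirectProduct.rightHom.comp T = FreeGroup.lift q := by
      apply FreeGroup.ext_hom
      intro x
      show (T (FreeGroup.of x)).right = _
      rw [hTx, FreeGroup.lift_apply_of]
    exact DFunLike.congr_fun this c
  have hl1 : ∀ x v, (T (FreeGroup.of x)).left v = δ x v := by
    intro x v; rw [hTx]
  have hl2 : ∀ x v, (T (FreeGroup.of x)⁻¹).left v = (δ x (v * (q x)⁻¹))⁻¹ := by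
    intro x v
    rw [map_inv, hTx, SemidirectProduct.inv_left]
    rfl
  obtain ⟨x0, b0⟩ := a0
  refine ⟨T, hr, ?_, ?_, ?_, ?_⟩
  · intro v c c'
    rw [map_mul, SemidirectProduct.mul_left, Pi.mul_apply, trn_apply, hr]
  · rintro v ⟨x, b⟩ h1 h2
    cases b with
    | true =>
      rw [sg_true, sg_true, hl1]
      by_cases hx : x = x0
      · subst hx
        cases b0 with
        | true =>
          have hv : v ≠ g := fun hv => h1 ⟨rfl, hv⟩
          simp [δ, hv]
        | false =>
          have hv : v * q x ≠ g := fun hv => h2 ⟨rfl, hv⟩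
          simp [δ, hv]
      · simp [δ, hx]
    | false =>
      rw [sg_false, sg_false, hl2]
      by_cases hx : x = x0
      · subst hx
        cases b0 with
        | true =>
          have hv : v * (q x)⁻¹ ≠ g := fun hv => h2 ⟨rfl, hv⟩
          simp [δ, hv]
        | false =>
          have hv : v ≠ g := fun hv => h1 ⟨rfl, hv⟩
          simp [δ, hv]
      · simp [δ, hx]
  · cases b0 with
    | true =>
      rw [sg_true, sg_true, hl1]
      simp [δ]
    | false =>
      rw [sg_false, sg_false, hl2]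
      simp [δ]
  · intro v hv
    cases b0 with
    | true =>
      have hv' : v * (q x0)⁻¹ = g := hv
      show (T (FreeGroup.of x0)⁻¹).left v = (f x0)⁻¹ * ζ⁻¹
      rw [hl2, hv']
      simp [δ]
    | false =>
      have hv' : v * q x0 = g := hv
      show (T (FreeGroup.of x0)).left v = f x0 * ζ⁻¹
      rw [hl1]
      simp [δ, hv']

/-- the image of a `W`-word under the lift. -/
theorem lift_W {X : Type} {G : Type*} [Group G] (q : X → G) (ℓ : ℕ → X × Bool) (n : ℕ) :
    FreeGroup.lift q (W FreeGroup.of ℓ n) = W q ℓ n := by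
  rw [map_W]
  congr 1
  funext x
  exact FreeGroup.lift_apply_of

theorem lift_sg {X : Type} {G : Type*} [Group G] (q : X → G) (a : X × Bool) :
    FreeGroup.lift q (sg FreeGroup.of a) = sg q a := by
  rw [map_sg]
  congr 1
  funext x
  exact FreeGroup.lift_apply_of

namespace Wd
variable {X : Type} (w : Wd X)

/-- the one-relator group with relator a proper power -/
abbrev P (K : ℕ) : Type :=
  PresentedGroup ({W FreeGroup.of w.ℓ (w.L * K)} : Set (FreeGroup X))

/-- generators -/
def p (K : ℕ) (x : X) : w.P K := PresentedGroup.of x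

theorem W_p (K : ℕ) : W (w.p K) w.ℓ (w.L * K) = 1 := by
  have h : (PresentedGroup.mk ({W FreeGroup.of w.ℓ (w.L * K)} : Set (FreeGroup X)))
      (W FreeGroup.of w.ℓ (w.L * K)) = 1 := PresentedGroup.one_of_mem rfl
  rw [map_W] at h
  exact h

theorem mk_eq_lift (K : ℕ) (c : FreeGroup X) :
    (PresentedGroup.mk ({W FreeGroup.of w.ℓ (w.L * K)} : Set (FreeGroup X))) c =
      FreeGroup.lift (w.p K) c := by
  have : (PresentedGroup.mk ({W FreeGroup.of w.ℓ (w.L * K)} : Set (FreeGroup X))) =
      FreeGroup.lift (w.p K) := by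
    apply FreeGroup.ext_hom
    intro x
    rw [FreeGroup.lift_apply_of]
    rfl
  rw [this]

theorem exists_liftP {K : ℕ} {H : Type*} [Group H] (T : FreeGroup X →* H)
    (hT : T (W FreeGroup.of w.ℓ (w.L * K)) = 1) :
    ∃ φ : w.P K →* H, ∀ c, φ (FreeGroup.lift (w.p K) c) = T c := by
  have h : ∀ r ∈ ({W FreeGroup.of w.ℓ (w.L * K)} : Set (FreeGroup X)),
      FreeGroup.lift (fun x => T (FreeGroup.of x)) r = 1 := by
    intro r hr
    rw [Set.mem_singleton_iff] at hr
    subst hr
    have : FreeGroup.lift (fun x => T (FreeGroup.of x)) = T := by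
      apply FreeGroup.ext_hom
      intro x
      rw [FreeGroup.lift_apply_of]
    rw [this, hT]
  refine ⟨PresentedGroup.toGroup h, fun c => ?_⟩
  have : (PresentedGroup.toGroup h).comp (FreeGroup.lift (w.p K)) = T := by
    apply FreeGroup.ext_hom
    intro x
    show PresentedGroup.toGroup h (FreeGroup.lift (w.p K) (FreeGroup.of x)) = _
    rw [FreeGroup.lift_apply_of]
    exact PresentedGroup.toGroup.of h
  exact DFunLike.congr_fun this c

/-- the map to `B` -/
theorem exists_bar (K : ℕ) : ∃ φ : w.P K →* w.B, ∀ n, φ (W (w.p K) w.ℓ n) = W w.b w.ℓ n := by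
  obtain ⟨φ, hφ⟩ := w.exists_liftP (K := K) (FreeGroup.lift w.b) (by
    rw [lift_W, w.W_mul, w.W_b, one_pow])
  refine ⟨φ, fun n => ?_⟩
  rw [← lift_W (w.p K), hφ, lift_W]

theorem dvd_of_W_b (h : w.Root) (n : ℕ) (hn : W w.b w.ℓ n = 1) : w.L ∣ n := by
  by_contra hd
  apply h [n] (by simp) (by simpa using hd)
  simpa using hn

/-- the order lemma -/
theorem dvd_of_W_p (h : w.Root) {K : ℕ} (n : ℕ) (hn : W (w.p K) w.ℓ n = 1) :
    w.L * K ∣ n := by
  obtain ⟨φ, hφ⟩ := w.exists_bar K
  have h1 : W w.b w.ℓ n = 1 := by rw [← hφ, hn, map_one]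
  obtain ⟨j, rfl⟩ := w.dvd_of_W_b h n h1
  apply Nat.mul_dvd_mul_left
  obtain ⟨T, hT1, hT2, hT3, hT4, hT5⟩ := exists_T (X := X) (Q := w.B)
    (Z := Multiplicative (ZMod K)) w.b (fun _ => 1) 1 (w.ℓ 0) (Multiplicative.ofAdd 1)
  have hsg : ∀ a : X × Bool, sg (fun _ : X => (1 : Multiplicative (ZMod K))) a = 1 := by
    intro a; unfold sg; split_ifs <;> simp
  have hstep : ∀ n, 0 < n → n ≤ w.L →
      (T (W FreeGroup.of w.ℓ n)).left 1 = Multiplicative.ofAdd 1 := by
    intro n
    induction n with
    | zero => intro h0; omega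
    | succ n ih =>
      intro _ hn
      rcases Nat.eq_zero_or_pos n with h0 | h0
      · subst h0
        rw [W_succ, W_zero, one_mul, hT4, hsg, mul_one]
      · rw [W_succ, hT2, ih h0 (by omega), hT3, hsg, mul_one]
        · rintro ⟨-, hv⟩
          rw [one_mul, lift_W] at hv
          have := Nat.le_of_dvd h0 (w.dvd_of_W_b h n hv)
          omega
        · rintro ⟨ha, hv⟩
          rw [one_mul, lift_W, ← W_succ] at hv
          have h2 := Nat.le_of_dvd (by omega) (w.dvd_of_W_b h (n + 1) hv)
          have h3 : n + 1 = w.L := by omega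
          have h4 := w.red n
          apply h4
          rw [ha, inv_inv, h3]
          have := w.per 0
          rw [zero_add] at this
          exact this
  have hs1 : (T (W FreeGroup.of w.ℓ w.L)).left 1 = Multiplicative.ofAdd 1 :=
    hstep w.L w.pos le_rfl
  have hpow : ∀ v j, (T (W FreeGroup.of w.ℓ (w.L * j))).left v =
      ((T (W FreeGroup.of w.ℓ w.L)).left v) ^ j := by
    intro v j
    induction j with
    | zero =>
      rw [Nat.mul_zero, W_zero, map_one, pow_zero]
      rfl
    | succ j ih =>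
      rw [w.W_mul, pow_succ, ← w.W_mul, hT2, ih, lift_W, w.W_mul, w.W_b, one_pow, mul_one,
        pow_succ]
  have hTK : T (W FreeGroup.of w.ℓ (w.L * K)) = 1 := by
    apply SemidirectProduct.ext
    · funext v
      rw [hpow]
      show _ = (1 : Multiplicative (ZMod K))
      have : ∀ z : Multiplicative (ZMod K), z ^ K = 1 := by
        intro z
        rw [← toAdd_eq_zero, toAdd_pow]
        simp
      exact this _
    · rw [hT1, lift_W, w.W_mul, w.W_b, one_pow]
      rfl
  obtain ⟨ψ, hψ⟩ := w.exists_liftP T hTK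
  have h3 := congrArg ψ hn
  rw [← lift_W (w.p K), hψ, map_one] at h3
  have h4 := hpow 1 j
  rw [h3, hs1] at h4
  have h5 : (1 : Multiplicative (ZMod K)) = Multiplicative.ofAdd (1 : ZMod K) ^ j := h4
  rw [← ofAdd_nsmul] at h5
  have h6 : (0 : ZMod K) = j • (1 : ZMod K) := h5
  rw [nsmul_eq_mul, mul_one] at h6
  exact (ZMod.natCast_eq_zero_iff j K).1 h6.symm

end Wd
end Pool.H679R3.OR
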